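import Pool.Agent.Q283.LP.K49
import Pool.Agent.Q283.LP.X5

/-!
# The multiquadratic fields inside almost every integer: where the rank and the order of vanishing of ALL the twists of
# `X_0(49)` do not change

`E_m : y² = x³ - 2835 m² x - 71442 m³` is the quadratic twist by `m` of the curve `X_0(49)`; the class consists of the
squarefree positive integers whose prime factors are `1` modulo `4`. Nothing is assumed about the rank of the curves
`E_N`, their Tate-Shafarevich groups or their L-functions. A member `m` of the class is GOOD if `E_m(ℚ)` is finite,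
`Ш(E_m/ℚ)[2] = 0` and `L(E_m, 1) ≠ 0`.

For a positive integer `D` let `divs D` be the set of the members of the class which divide `D` (there are `2 ^ w` of them,
`w` the number of the prime factors `1` modulo `4` of `D`). The FIELDS INSIDE `D` are the fields
`K = ℚ(√d_1, …, √d_n)` of degree `2 ^ n`, `d = (d_1, …, d_n)` a tuple of elements of `divs D`, independent modulo squares
(`tuples n D`). The curve `E_N` over `K` has `2 ^ n - 1` new parts, the twists by `∏_{i ∈ T} d_i`, `T ≠ ∅`; `NoNewPart N d`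
says that all of them are good (there is no condition on `E_N` itself).

* STABILITY. If `NoNewPart N d` then, for `K = ℚ(√d_1, …, √d_n)`: `rank E_N(K) = rank E_N(ℚ)`,
  `ord_{s=1} L(E_N/K, s) = ord_{s=1} L(E_N/ℚ, s)` for the entire continuations, so the conjecture of Birch and
  Swinnerton-Dyer (rank part) for `E_N` over `K` is EQUIVALENT to the conjecture for `E_N` over `ℚ`. If `N` is good, then
  `E_N(K)` is finite, `L(E_N/K, 1) ≠ 0` (so the conjecture holds for `E_N` over `K`), and `Ш(E_N/K)[2^∞]` is finite and killed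
  by `2 ^ n`. For `n = 1` this is: `E_N` over the quadratic subfield `ℚ(√(∏_{i ∈ T} d_i))` is stable if the one
  twist by `∏_{i ∈ T} d_i` is good.
* EXACT LAWS. There is ONE set `S` of positive integers, of NATURAL DENSITY `1`, and of relative density `1`
  also in the class, such that for all `n`, all families `N_1, …, N_M` of different members of the class, all
  `ε > 0` and all large `D` in `S` the following holds for the tuples `d` in `tuples n D`, with `p = κ ^ (2 ^ n - 1)`,
  `κ = ∏ (1 - 2 ^ (-2 i - 1)) = 0.4194…`: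
  (1) for every set `A` of indices the share of the `d` such that `NoNewPart N_j d` holds exactly for the `j` in `A` is
      within `ε` of `p ^ |A| (1 - p) ^ (M - |A|)`;
  (2) for a share `≥ p ^ M - ε` of the `d` rank and order over `K` are stable for ALL the `E_(N_j)` at once, and for a share
      `≥ 1 - (1 - p) ^ M - ε` for one of them at least;
  (3) the share of the `d` for which the frequency of the `j` with `NoNewPart N_j d` differs from `p` by `η` or more is
      at most `2 exp (- η² M / 4) + ε`;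
  (4) ALL PATTERNS OF CHARACTERS. For every set `Q` of pairs `(j, T)`, `T ≠ ∅`, the share of the `d` for which the twist of
      `E_(N_j)` by `∏_{i ∈ T} d_i` is good exactly for the `(j, T)` in `Q` is within `ε` of
      `κ ^ |Q| (1 - κ) ^ (M (2 ^ n - 1) - |Q|)`: the nontrivial characters of `Gal(K/ℚ)` for which the twist is good
      are a random set of density `κ`, independent for the different `N_j`;
  (5) the share of the `d` for which the frequency of the good pairs `(j, T)` differs from `κ` by `η` or more is at most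
      `2 exp (- η² M (2 ^ n - 1) / 4) + ε`. So (`M = 1`, `n` large) over nearly all the fields `K` of degree `2 ^ n` inside `D`
      the rank and the order of `E_N` are the same as over `ℚ` for more than `41` percent of the quadratic subfields of `K`.
  The tuples `tuples n D` are at least the share `1 - ε` of all the tuples of elements of `divs D`.

Inputs: `Pool/Agent/Q283/LP` (project LP: all linear patterns of divisors; with helper187, 203, 98, 222, 162, 150), the sieve
`Q155/NL`, the criterion and the L-functions of the twists of `X_0(49)` (`Q283/J2`, `Q155/KG`), and the theorems over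
multiquadratic fields of `Y73`, `Y687/MQ` (helper73, helper687).
-/

set_option autoImplicit false

open scoped Classical

namespace Pool.Agent.Results.MP_32c55d_nt.FieldsInsideDivisors

open Finset Filter NumberField IsDedekindDomain

/-- coefficients of the twist `E_D : y² = x³ + A D x + B D` of `X_0(49)` -/
def A (D : ℤ) : ℤ := -2835 * D ^ 2

/-- coefficients of the twist `E_D : y² = x³ + A D x + B D` of `X_0(49)` -/
def B (D : ℤ) : ℤ := -71442 * D ^ 3

/-- the curve `E_D` over the field `K` -/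
def E (K : Type) [Field K] (D : ℤ) : WeierstrassCurve K :=
  { a₁ := 0, a₂ := 0, a₃ := 0, a₄ := (A D : K), a₆ := (B D : K) }

/-- the group `E_D(K)` is finitely generated -/
def FinGen (K : Type) [Field K] (D : ℤ) : Prop := Module.Finite ℤ (E K D).toAffine.Point

/-- the rank of `E_D(K)` -/
noncomputable def rank (K : Type) [Field K] (D : ℤ) : ℕ := Module.finrank ℤ (E K D).toAffine.Point

/-- the number `q_v` of elements of the residue field of a finite place `v` of `K` -/
noncomputable def qv (K : Type) [Field K] (v : HeightOneSpectrum (𝓞 K)) : ℕ :=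
  Nat.card (𝓞 K ⧸ v.asIdeal)

/-- `a_v = q_v + 1 - #E(k_v)`, that is `q_v` minus the number of the affine points over `k_v` -/
noncomputable def av (K : Type) [Field K] (M : ℤ) (v : HeightOneSpectrum (𝓞 K)) : ℤ :=
  (qv K v : ℤ) - Nat.card {z : (𝓞 K ⧸ v.asIdeal) × (𝓞 K ⧸ v.asIdeal) //
    z.2 ^ 2 = z.1 ^ 3 + (A M : 𝓞 K ⧸ v.asIdeal) * z.1 + (B M : 𝓞 K ⧸ v.asIdeal)}

/-- `F` is entire and is, for `Re s > 3/2`, the L-function of `E_M` over `K` without the Euler factors at
the places `v ∣ 42 M m` -/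
def IsL (K : Type) [Field K] (M m : ℤ) (F : ℂ → ℂ) : Prop :=
  Differentiable ℂ F ∧ ∀ s : ℂ, (3 : ℝ) / 2 < s.re →
    HasProd (fun v : HeightOneSpectrum (𝓞 K) =>
      if ((42 * M * m : ℤ) : 𝓞 K) ∈ v.asIdeal then 1 else
        (1 - (av K M v : ℂ) * (qv K v : ℂ) ^ (-s) + (qv K v : ℂ) ^ (1 - 2 * s))⁻¹) (F s)

/-- the class: squarefree, all prime factors `1` modulo `4` -/
def Class (D : ℕ) : Prop := Squarefree D ∧ ∀ p : ℕ, p.Prime → p ∣ D → p % 4 = 1

/-- `E_D(ℚ)` is finite, `Ш(E_D/ℚ)` has no element of order two, and `L(E_D, 1) ≠ 0` -/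
def Good (D : ℕ) : Prop :=
  Finite (E ℚ D).toAffine.Point ∧ (∀ x : Pool.Agent.TH841.SH.D.Sha (E ℚ D), 2 • x = 0 → x = 0) ∧
    ∀ G : ℂ → ℂ, IsL ℚ D 1 G → G 1 ≠ 0

/-- the number `κ = (1 - 1/2) (1 - 1/8) (1 - 1/32) ⋯` -/
noncomputable def κ : ℝ := ∏' i : ℕ, (1 - (1 / 2 : ℝ) ^ (2 * i + 1))

/-- the squarefree part of `n`: the squarefree `s` such that `n / s` is a square -/
def squarefreePart (n : ℕ) : ℕ := ∏ p ∈ n.primeFactors.filter (fun p => n.factorization p % 2 = 1), p

/-- the members of the class which divide `D` -/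
noncomputable def divs (D : ℕ) : Finset ℕ := D.divisors.filter Class

/-- no product of the `d_i` over a nonempty set is a square -/
def Independent {n : ℕ} (d : Fin n → ℕ) : Prop :=
  ∀ T : Finset (Fin n), T.Nonempty → ¬ IsSquare (∏ i ∈ T, d i)

/-- the tuples inside `D` -/
noncomputable def tuples (n D : ℕ) : Finset (Fin n → ℕ) :=
  (Fintype.piFinset fun _ : Fin n => divs D).filter Independent

/-- `K = ℚ(√d_1, …, √d_n)` -/
def IsField {n : ℕ} (d : Fin n → ℕ) (K : Type) [Field K] [NumberField K] : Prop :=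
  ∃ x : Fin n → K, (∀ i, x i ^ 2 = (d i : K)) ∧ IntermediateField.adjoin ℚ (Set.range x) = ⊤

/-- the twists of `E_N` by all the products of the `d_i` over nonempty sets are good -/
def NoNewPart {n : ℕ} (N : ℕ) (d : Fin n → ℕ) : Prop :=
  ∀ T : Finset (Fin n), T.Nonempty → Good (squarefreePart (N * ∏ i ∈ T, d i))

/-- Stability of rank and order over `K = ℚ(√d_1, …, √d_n)`, and the equivalence of the conjectures over `K` and over
`ℚ`; if `N` is good, rank and order are `0` and `Ш(E_N/K)[2^∞]` is finite and killed by `2 ^ n`. Here `Sha W` is the group of the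
continuous cocycles `Gal(K̄/K) → W(K̄)` which are coboundaries at all places of `K`, modulo the coboundaries. -/
def Stable {n : ℕ} (N : ℕ) (d : Fin n → ℕ) (K : Type) [Field K] [NumberField K] : Prop :=
  Module.finrank ℚ K = 2 ^ n ∧ FinGen K N ∧ rank K N = rank ℚ N ∧
    (∃ L₀ L : ℂ → ℂ, IsL ℚ N 1 L₀ ∧ IsL K N (∏ i, d i : ℕ) L ∧
      analyticOrderAt L 1 = analyticOrderAt L₀ 1 ∧
      (analyticOrderAt L 1 = (rank K N : ℕ∞) ↔ analyticOrderAt L₀ 1 = (rank ℚ N : ℕ∞))) ∧
    (Good N → Finite (E K N).toAffine.Point ∧ (∀ L : ℂ → ℂ, IsL K N (∏ i, d i : ℕ) L → L 1 ≠ 0) ∧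
      {x : Pool.Agent.TH841.NF.D.Sha (E K N) | ∃ t : ℕ, 2 ^ t • x = 0}.Finite ∧
      ∀ (x : Pool.Agent.TH841.NF.D.Sha (E K N)) (t : ℕ), 2 ^ t • x = 0 → 2 ^ n • x = 0)

/-- the share of the tuples inside `D` with the property `P` -/
noncomputable def share (n D : ℕ) (P : (Fin n → ℕ) → Prop) : ℝ :=
  (((tuples n D).filter P).card : ℝ) / (tuples n D).card

/-- the number of the `j` with `NoNewPart (N j) d` -/
noncomputable def number {M n : ℕ} (N : Fin M → ℕ) (d : Fin n → ℕ) : ℕ :=
  (Finset.univ.filter fun j => NoNewPart (N j) d).card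

/-- the twist of `E_(N_j)` by `∏_{i ∈ T} d_i`, `T` not empty, is good -/
def GoodPair {M n : ℕ} (N : Fin M → ℕ) (d : Fin n → ℕ) (y : Fin M × Finset (Fin n)) : Prop :=
  y.2.Nonempty ∧ Good (squarefreePart (N y.1 * ∏ i ∈ y.2, d i))

/-- the number of the good pairs `(j, T)`, `T` not empty -/
noncomputable def pairs {M n : ℕ} (N : Fin M → ℕ) (d : Fin n → ℕ) : ℕ :=
  (Finset.univ.filter fun y => GoodPair N d y).card

/-- the number of the `D ≤ X` with the property `P` -/
noncomputable def count (P : ℕ → Prop) (X : ℕ) : ℕ := ((Finset.Icc 1 X).filter P).card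

section proof

open Q283.LP
open Q283.GW (C4 ρ49)
open Q283.GM (rk)
open Q283.GS (al)
open Q283.XF (nf)
open Q283.J2 (RZ49)
open Q155.NL (Cl Alm)
open Pool.Agent.Y19.QT (IsLFun IsLFunK)
open _root_.Q155.KG (cr)

theorem class_iff (D : ℕ) : Class D ↔ C4 D := by
  unfold Class C4 Q283.GW.CF
  constructor
  · rintro ⟨h1, h2⟩
    exact ⟨h1, fun p hp => ⟨Nat.prime_of_mem_primeFactors hp,
      h2 p (Nat.prime_of_mem_primeFactors hp) (Nat.dvd_of_mem_primeFactors hp)⟩⟩
  · rintro ⟨h1, h2⟩
    exact ⟨h1, fun p hp hd => (h2 p (Nat.mem_primeFactors.2 ⟨hp, hd, h1.ne_zero⟩)).2⟩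

theorem class_cl (D : ℕ) : Class D ↔ Cl ρ49.Φ D := by
  rw [class_iff, Q155.NL.cl_iff]

theorem isL_iff (K : Type) [Field K] [NumberField K] (M m : ℤ) (F : ℂ → ℂ) :
    IsL K M m F ↔ Y19.QT.IsLFunK K (-2835 * M ^ 2) (-71442 * M ^ 3) m F := by
  have key : ∀ v : HeightOneSpectrum (𝓞 K), (((42 * M * m : ℤ) : 𝓞 K) ∈ v.asIdeal ↔
      ((2 * (4 * (-2835 * M ^ 2) ^ 3 + 27 * (-71442 * M ^ 3) ^ 2) * m : ℤ) : 𝓞 K) ∈
        v.asIdeal) := by
    intro v
    have := v.isPrime
    constructor
    · intro h1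
      obtain ⟨z, hz⟩ : ∃ z : ℤ, 2 * (4 * (-2835 * M ^ 2) ^ 3 +
          27 * (-71442 * M ^ 3) ^ 2) * m = z * (42 * M * m) :=
        ⟨2 ^ 8 * 3 ^ 11 * 7 ^ 2 * M ^ 5, by ring⟩
      rw [hz, Int.cast_mul]
      exact Ideal.mul_mem_left _ _ h1
    · intro h1
      obtain ⟨z, hz⟩ : ∃ z : ℤ, (42 * M * m) ^ 15 = z * (2 * (4 * (-2835 * M ^ 2) ^ 3 +
          27 * (-71442 * M ^ 3) ^ 2) * m) :=
        ⟨2 ^ 6 * 3 ^ 3 * 7 ^ 12 * M ^ 9 * m ^ 14, by ring⟩
      refine Ideal.IsPrime.mem_of_pow_mem this 15 ?_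
      rw [← Int.cast_pow, hz, Int.cast_mul]
      exact Ideal.mul_mem_left _ _ h1
  have ha : ∀ v : HeightOneSpectrum (𝓞 K), av K M v =
      Y19.QT.av K (-2835 * M ^ 2) (-71442 * M ^ 3) v := by
    intro v
    unfold av A B
    rfl
  unfold IsL Y19.QT.IsLFunK
  refine and_congr Iff.rfl (forall_congr' fun s => forall_congr' fun _ => ?_)
  refine Iff.of_eq (congrArg (fun f => HasProd f (F s)) (funext fun v => ?_))
  by_cases h : ((42 * M * m : ℤ) : 𝓞 K) ∈ v.asIdeal
  · rw [if_pos h, if_pos ((key v).1 h)]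
  · rw [if_neg h, if_neg (fun h' => h ((key v).2 h')), ha]
    rfl

theorem isL_unique {K : Type} [Field K] [NumberField K] {M m : ℤ} {F G : ℂ → ℂ} (hF : IsL K M m F)
    (hG : IsL K M m G) : F = G :=
  Y687.MQ.isLFunK_unique ((isL_iff _ _ _ _).1 hF) ((isL_iff _ _ _ _).1 hG)

/-- the function over `ℚ` as a number field -/
theorem lift_Q {D : ℕ} (hD : D ≠ 0) {G : ℂ → ℂ}
    (hG : IsLFun (-2835 * (D : ℤ) ^ 2) (-71442 * (D : ℤ) ^ 3) G) :
    ∃ F : ℂ → ℂ, IsL ℚ D 1 F ∧ analyticOrderAt F 1 = analyticOrderAt G 1 := by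
  have hab := _root_.Q155.KG.disc49 (M := (D : ℤ)) (by exact_mod_cast hD)
  obtain ⟨F, h1, h2⟩ := Pool.Agent.Y73.QMQ1.MQ1 _ _ hab 0 (fun i => i.elim0)
    (fun T hT => by obtain ⟨i, -⟩ := hT; exact i.elim0) (fun _ => G) (fun T => by
      have hT : T = ∅ := Finset.eq_empty_of_isEmpty T
      rw [hT, Finset.prod_empty, one_pow, one_pow, mul_one, mul_one]
      exact hG) ℚ (fun i => i.elim0) (fun i => i.elim0) (by
      rw [eq_top_iff]
      intro z _
      have := (IntermediateField.adjoin ℚ (Set.range fun i : Fin 0 => (i.elim0 : ℚ))).algebraMap_mem z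
      exact this)
  refine ⟨F, (isL_iff _ _ _ _).2 ?_, ?_⟩
  · rwa [Finset.univ_eq_empty, Finset.prod_empty] at h1
  · rw [h2 1 (by norm_num), Finset.sum_const, Finset.card_univ, Fintype.card_finset, Fintype.card_fin,
      pow_zero, one_nsmul]

theorem order_Q {D : ℕ} (hD : D ≠ 0) {F G : ℂ → ℂ} (hF : IsL ℚ D 1 F)
    (hG : IsLFun (-2835 * (D : ℤ) ^ 2) (-71442 * (D : ℤ) ^ 3) G) :
    analyticOrderAt F 1 = analyticOrderAt G 1 := by
  obtain ⟨F', h1, h2⟩ := lift_Q hD hG
  rw [isL_unique hF h1, h2]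

theorem rz_eq (D : ℤ) : (Finite (E ℚ D).toAffine.Point ∧
    ∀ x : Pool.Agent.TH841.SH.D.Sha (E ℚ D), 2 • x = 0 → x = 0) ↔ RZ49 D := by
  unfold RZ49
  refine and_congr Iff.rfl (forall_congr' fun x => ?_)
  rw [two_nsmul]
  rfl

theorem good_iff {D : ℕ} (hD : C4 D) : Good D ↔ cr D = 0 := by
  have h0 : D ≠ 0 := hD.1.ne_zero
  have h1 : RZ49 (D : ℤ) ↔ cr D = 0 := by
    rw [hD.eq]
    exact Q283.GW.rz_CF hD.2
  constructor
  · rintro ⟨h2, h3, -⟩
    exact h1.1 ((rz_eq _).1 ⟨h2, h3⟩)
  · intro h2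
    obtain ⟨h3, h4⟩ := (rz_eq _).2 (h1.2 h2)
    refine ⟨h3, h4, fun F hF => ?_⟩
    · obtain ⟨⟨G, hG, hG1⟩, -⟩ := Q283.GW.zb_CF hD.2 h2
      rw [← hD.eq] at hG
      have h5 := order_Q h0 hF hG
      rw [hG1] at h5
      exact (hF.1.analyticAt 1).analyticOrderAt_eq_zero.1 h5

theorem rank_eq (K : Type) [Field K] (D : ℤ) :
    rank K D = Pool.Agent.Y19.QT.rkK K (-2835 * D ^ 2) (-71442 * D ^ 3) := rfl

theorem rank_Q (D : ℤ) :
    rank ℚ D = Module.finrank ℤ (Pool.Agent.Y19.QT.EQ (-2835 * D ^ 2) (-71442 * D ^ 3)) := by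
  have key : ∀ i j : DecidableEq ℚ,
      (letI := i; Module.finrank ℤ (E ℚ D).toAffine.Point) =
        (letI := j; Module.finrank ℤ (E ℚ D).toAffine.Point) := by
    intro i j
    cases Subsingleton.elim i j
    rfl
  exact key _ _

theorem ind_int {n : ℕ} {d : Fin n → ℕ} (h : Independent d) :
    Pool.Agent.Y687.MQ.Ind (fun i => (d i : ℤ)) := by
  intro T hT h'
  apply h T hT
  have e : ∏ i ∈ T, (d i : ℤ) = ((∏ i ∈ T, d i : ℕ) : ℤ) := by push_cast; rfl
  rw [e] at h'
  obtain ⟨z, hz⟩ := h'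
  refine ⟨z.natAbs, ?_⟩
  have := congrArg Int.natAbs hz
  rw [Int.natAbs_natCast, Int.natAbs_mul] at this
  exact this

/-- **Stability.** -/
theorem stable_of {n N : ℕ} {d : Fin n → ℕ} (hN : Class N) (hd : ∀ i, Class (d i)) (hI : Independent d)
    (hG : NoNewPart N d) (K : Type) [Field K] [NumberField K] (hK : IsField d K) : Stable N d K := by
  obtain ⟨x, hx, htop⟩ := hK
  have hN' := (class_iff N).1 hN
  have hd' := fun i => (class_iff _).1 (hd i)
  have hG' : ∀ T : Finset (Fin n), T.Nonempty → cr (sqn (N * ∏ i ∈ T, d i)) = 0 := fun T hT =>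
    (good_iff (c4_mulT hN' hd' T).1).1 (hG T hT)
  have hpc : ((∏ i, d i : ℕ) : ℤ) = ∏ i, (d i : ℤ) := by push_cast; rfl
  obtain ⟨h1, h2, h3, G, L, hG1, hL1, hGL⟩ := stab49 hN' hd' (ind_int hI) hG' K x hx htop
  obtain ⟨F, hF, hFG⟩ := lift_Q hN'.1.ne_zero hG1
  have hrk : rank K N = rank ℚ N := by
    rw [rank_eq, rank_Q]
    exact h3
  refine ⟨h1, h2, hrk, ⟨F, L, hF, ?_, ?_, ?_⟩, fun hgood => ?_⟩
  · rw [hpc]
    exact (isL_iff _ _ _ _).2 hL1
  · rw [hGL, hFG]
  · rw [hrk, hGL, hFG]
  · have hG'' : ∀ T : Finset (Fin n), cr (sqn (N * ∏ i ∈ T, d i)) = 0 := by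
      intro T
      by_cases hT : T.Nonempty
      · exact hG' T hT
      · rw [Finset.not_nonempty_iff_eq_empty.1 hT, Finset.prod_empty, mul_one, sqn_of_sqf hN'.1]
        exact (good_iff hN').1 hgood
    obtain ⟨⟨⟨F', hF', hF1⟩, hfin⟩, hF2, hKl⟩ := good49 hN' hd' (ind_int hI) hG'' K x hx htop
    refine ⟨hfin, fun L' hL' => ?_, ?_, ?_⟩
    · rw [hpc] at hL'
      rw [Y687.MQ.isLFunK_unique ((isL_iff _ _ _ _).1 hL') hF']
      exact hF1
    · exact hF2
    · exact fun x t hx => hKl t x hx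

theorem tuples_eq (n D : ℕ) : tuples n D = IkN ρ49.Φ n D := by
  have h : divs D = dvN ρ49.Φ D := by
    unfold divs dvN
    refine Finset.filter_congr fun d _ => class_cl d
  unfold tuples IkN
  rw [h]
  rfl

theorem mem_tup {n D : ℕ} (hD : D ≠ 0) {d : Fin n → ℕ} (hd : d ∈ tuples n D) :
    (∀ i, Class (d i) ∧ d i ∣ D) ∧ Independent d := by
  rw [tuples_eq, mem_IkN] at hd
  exact ⟨fun i => ⟨(class_cl _).2 ((mem_dvN hD).1 (hd.1 i)).1, ((mem_dvN hD).1 (hd.1 i)).2⟩, hd.2⟩

theorem share_eq {n D : ℕ} (P : (Fin n → ℕ) → Prop) :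
    share n D P = cnI ρ49.Φ D P / (IkN ρ49.Φ n D).card := by
  unfold share cnI
  rw [tuples_eq]

theorem share_mono {n D : ℕ} {P Q : (Fin n → ℕ) → Prop} (h : ∀ d ∈ tuples n D, P d → Q d) :
    share n D P ≤ share n D Q := by
  unfold share
  refine div_le_div_of_nonneg_right ?_ (Nat.cast_nonneg _)
  rw [Nat.cast_le]
  refine Finset.card_le_card fun d hd => ?_
  rw [Finset.mem_filter] at hd ⊢
  exact ⟨hd.1, h d hd.1 hd.2⟩

theorem share_not {n D : ℕ} (hne : (tuples n D).Nonempty) (P : (Fin n → ℕ) → Prop) :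
    share n D P = 1 - share n D fun d => ¬ P d := by
  unfold share
  have hpos : (0 : ℝ) < (tuples n D).card := by exact_mod_cast Finset.card_pos.2 hne
  have h := Finset.card_filter_add_card_filter_not (s := tuples n D) (fun d => P d)
  have h' : (((tuples n D).filter fun d => P d).card : ℝ) +
      (((tuples n D).filter fun d => ¬ P d).card : ℝ) = (tuples n D).card := by exact_mod_cast h
  rw [eq_sub_iff_add_eq, ← add_div]
  refine (congrArg (fun x : ℝ => x / ((tuples n D).card : ℝ)) ?_).trans (div_self hpos.ne')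
  refine Eq.trans ?_ h'
  congr 2
  exact fcc fun _ _ => Iff.rfl

/-- good twists and coranks -/
theorem good_T {n N D : ℕ} (hD : D ≠ 0) {d : Fin n → ℕ} (hN : Class N) (hd : d ∈ tuples n D)
    (T : Finset (Fin n)) : Good (squarefreePart (N * ∏ i ∈ T, d i)) ↔
      rk ρ49.Φ nf (sqn (N * ∏ i ∈ T, d i)).primeFactors = 0 :=
  good_iff (c4_mulT ((class_iff N).1 hN) (fun i => (class_iff _).1 ((mem_tup hD hd).1 i).1) T).1

theorem noNew_iff {n N D : ℕ} (hD : D ≠ 0) {d : Fin n → ℕ} (hN : Class N) (hd : d ∈ tuples n D) :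
    NoNewPart N d ↔ NNf ρ49 nf n N d :=
  forall_congr' fun T => forall_congr' fun _ => good_T hD hN hd T

end proof

open Q283.LP Q283.GW Q283.GM Q283.XF in
open Q283.GS (al) in
open Q155.NL (Cl Alm) in
/-- **The multiquadratic fields inside almost every integer.** -/
theorem result :
    (∀ (n N : ℕ) (d : Fin n → ℕ), Class N → (∀ i, Class (d i)) → Independent d → NoNewPart N d →
      ∀ (K : Type) [Field K] [NumberField K], IsField d K → Stable N d K) ∧
    (∀ D : ℕ, D ≠ 0 → (divs D).card = 2 ^ (D.primeFactors.filter fun p => p % 4 = 1).card) ∧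
    (∀ (n N : ℕ) (d : Fin n → ℕ), Class N → (∀ i, Class (d i)) → ∀ T : Finset (Fin n),
      Class (squarefreePart (N * ∏ i ∈ T, d i)) ∧
        ∃ c : ℕ, c ≠ 0 ∧ N * ∏ i ∈ T, d i = squarefreePart (N * ∏ i ∈ T, d i) * c ^ 2) ∧
    (∃ S : ℕ → Prop, Tendsto (fun X : ℕ => (count S X : ℝ) / X) atTop (nhds 1) ∧
      Tendsto (fun X : ℕ => (count (fun D => Class D ∧ S D) X : ℝ) / count Class X) atTop (nhds 1) ∧
      ∀ (M n : ℕ) (N : Fin M → ℕ), (∀ j, Class (N j)) → Function.Injective N →
      ∀ ε : ℝ, 0 < ε → ∃ D₀ : ℕ, ∀ D : ℕ, D₀ ≤ D → S D →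
        (tuples n D).Nonempty ∧ (1 - ε) * ((divs D).card : ℝ) ^ n ≤ (tuples n D).card ∧
        (∀ A : Finset (Fin M), |share n D (fun d => ∀ j, (NoNewPart (N j) d ↔ j ∈ A)) -
          (κ ^ (2 ^ n - 1)) ^ A.card * (1 - κ ^ (2 ^ n - 1)) ^ (M - A.card)| ≤ ε) ∧
        (κ ^ (2 ^ n - 1)) ^ M - ε ≤ share n D (fun d =>
          ∀ (K : Type) [Field K] [NumberField K], IsField d K → ∀ j, Stable (N j) d K) ∧
        1 - (1 - κ ^ (2 ^ n - 1)) ^ M - ε ≤ share n D (fun d => ∃ j,
          ∀ (K : Type) [Field K] [NumberField K], IsField d K → Stable (N j) d K) ∧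
        (0 < M → ∀ η : ℝ, 0 < η →
          share n D (fun d => η ≤ |(number N d : ℝ) / M - κ ^ (2 ^ n - 1)|) ≤
            2 * Real.exp (-(η ^ 2 * M / 4)) + ε) ∧
        (∀ Q : Finset (Fin M × Finset (Fin n)), (∀ y ∈ Q, y.2.Nonempty) →
          |share n D (fun d => ∀ y : Fin M × Finset (Fin n), (GoodPair N d y ↔ y ∈ Q)) -
            κ ^ Q.card * (1 - κ) ^ (M * (2 ^ n - 1) - Q.card)| ≤ ε) ∧
        (0 < M → 0 < n → ∀ η : ℝ, 0 < η →
          share n D (fun d => η ≤ |(pairs N d : ℝ) / (M * (2 ^ n - 1) : ℕ) - κ|) ≤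
            2 * Real.exp (-(η ^ 2 * (M * (2 ^ n - 1) : ℕ) / 4)) + ε)) ∧
    0.4194 < κ ∧ κ < 0.4195 := by
  have hκ : al 0 = κ := al0_c2
  have hκ1 : 0.4194 < κ := Pool.Agent.Y948.CQ.t_C2.2.2.2.1
  have hκ2 : κ < 0.4195 := Pool.Agent.Y948.CQ.t_C2.2.2.2.2
  have hdiv : ∀ D, divs D = dvN ρ49.Φ D := fun D => by
    unfold divs dvN
    exact Finset.filter_congr fun d _ => class_cl d
  refine ⟨fun n N d hN hd hI hG K _ _ hK => stable_of hN hd hI hG K hK, fun D hD => ?_,
    fun n N d hN hd T => ?_, ?_, hκ1, hκ2⟩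
  · rw [hdiv, card_dvN _ hD]
    congr 1
    refine fcc fun p hp => ?_
    rw [P49]
    exact ⟨fun h => h.2, fun h => ⟨Nat.prime_of_mem_primeFactors hp, h⟩⟩
  · obtain ⟨h1, h2⟩ := c4_mulT ((class_iff N).1 hN) (fun i => (class_iff _).1 (hd i)) T
    exact ⟨(class_iff _).2 h1, h2⟩
  · obtain ⟨S, hS, hS', hJ, -⟩ := mainN ρ49 nf
    have hJ' : LawS ρ49 nf S := hJ
    have hcc : ∀ X : ℕ, count Class X = Q155.NL.cnt (Cl ρ49.Φ) X := by
      intro X
      unfold count Q155.NL.cnt Q155.NL.cs
      exact fcc fun D _ => class_cl D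
    refine ⟨S, ?_, ?_, fun M n N hN hinj ε hε => ?_⟩
    · have h1 := Q155.NL.tendsto_of_alm (C := fun _ => True) ⟨1, le_rfl, trivial⟩ hS
      refine h1.congr fun X => ?_
      have h2 : Q155.NL.cnt (fun _ => True) X = X := by
        have h0 : Q155.NL.cs (fun _ => True) X = Finset.Icc 1 X := by
          ext D
          rw [Q155.NL.mem_cs, Finset.mem_Icc]
          exact ⟨fun h => h.1, fun h => ⟨h, trivial⟩⟩
        unfold Q155.NL.cnt
        rw [h0, Nat.card_Icc]
        omega
      rw [h2]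
      congr 2
      unfold Q155.NL.cnt Q155.NL.cs count
      congr 1
      ext D
      simp
    · have h1 := Q155.NL.tendsto_of_alm (C := Cl ρ49.Φ) ⟨1, le_rfl, squarefree_one, by simp⟩ hS'
      refine h1.congr fun X => ?_
      rw [hcc]
      congr 2
      unfold Q155.NL.cnt Q155.NL.cs count
      exact fcc fun D _ => and_congr_left fun _ => (class_cl D).symm
    · have hC : ∀ j, Cl ρ49.Φ (N j) := fun j => (class_cl _).1 (hN j)
      obtain ⟨p, hp⟩ : ∃ p : ℝ, p = κ ^ (2 ^ n - 1) := ⟨_, rfl⟩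
      have hp0 : 0 ≤ p := by
        rw [hp]
        exact pow_nonneg (by linarith) _
      have hp1 : p ≤ 1 := by
        rw [hp]
        exact pow_le_one₀ (by linarith) (by linarith)
      obtain ⟨m, hm⟩ : ∃ m, m = M * (2 ^ n - 1) := ⟨_, rfl⟩
      have e1 := pat_bl hJ' M n N hC hinj (show 0 < ε / 2 ^ M by positivity)
      have e2 := pat_ch hJ' M n N hC hinj (show 0 < ε / 2 ^ m by positivity)
      obtain ⟨D₀, hD₀⟩ := eventually_atTop.1 ((((e1.and e2).and (ind_most hJ' n hε)).and
        (ikn_ne hJ' n)).and (eventually_ne_atTop 0))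
      refine ⟨D₀, fun D hD hSD => ?_⟩
      obtain ⟨⟨⟨⟨k1, k2⟩, k3⟩, k4⟩, hD0⟩ := hD₀ D hD
      replace k1 := k1 hSD
      replace k2 := k2 hSD
      replace k3 := k3 hSD
      replace k4 := k4 hSD
      rw [hκ, ← hp] at k1
      rw [hκ] at k2
      rw [← hp, ← hm]
      have hne : (tuples n D).Nonempty := by rw [tuples_eq]; exact k4
      have hpos : (0 : ℝ) < ((IkN ρ49.Φ n D).card : ℝ) := by exact_mod_cast Finset.card_pos.2 k4
      have hdv : ∀ {x c δ : ℝ}, |x - c * (IkN ρ49.Φ n D).card| ≤ δ * (IkN ρ49.Φ n D).card →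
          |x / (IkN ρ49.Φ n D).card - c| ≤ δ := by
        intro x c δ h
        have h5 : x / (IkN ρ49.Φ n D).card - c = (x - c * (IkN ρ49.Φ n D).card) /
            (IkN ρ49.Φ n D).card := by
          field_simp
        rw [h5, abs_div, abs_of_pos hpos, div_le_iff₀ hpos]
        exact h
      have hA : ∀ A : Finset (Fin M), |share n D (fun d => ∀ j, (NoNewPart (N j) d ↔ j ∈ A)) -
          p ^ A.card * (1 - p) ^ (M - A.card)| ≤ ε / 2 ^ M := by
        intro A
        rw [share_eq, cnI_congr (Q := fun d => ∀ j, (NNf ρ49 nf n (N j) d ↔ j ∈ A)) fun d hd => by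
          rw [← tuples_eq] at hd
          refine forall_congr' fun j => ?_
          rw [noNew_iff hD0 (hN j) hd]]
        exact hdv (k1 A)
      have hA' : ∀ A : Finset (Fin M), |cE (IkN ρ49.Φ n D) (fun d =>
          ∀ j, (NoNewPart (N j) d ↔ j ∈ A)) - p ^ A.card *
          (1 - p) ^ (Fintype.card (Fin M) - A.card) * (IkN ρ49.Φ n D).card| ≤
            ε / 2 ^ M * (IkN ρ49.Φ n D).card := by
        intro A
        have h1 := k1 A
        rw [← cnI_congr (P := fun d => ∀ j, (NoNewPart (N j) d ↔ j ∈ A)) fun d hd => by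
          rw [← tuples_eq] at hd
          refine forall_congr' fun j => ?_
          rw [noNew_iff hD0 (hN j) hd]] at h1
        rw [Fintype.card_fin]
        exact h1
      have hgp : ∀ d ∈ IkN ρ49.Φ n D, ∀ y : Pn M n, (gdP ρ49 nf N y d ↔ GoodPair N d y.1) := by
        intro d hd y
        rw [← tuples_eq] at hd
        unfold gdP GoodPair
        rw [good_T hD0 (hN y.1.1) hd]
        exact ⟨fun h => ⟨y.2, h⟩, fun h => h.2⟩
      refine ⟨hne, ?_, fun A => (hA A).trans (div_le_self hε.le (one_le_pow₀ (by norm_num))), ?_, ?_,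
        fun hM η hη => ?_, fun Q hQ => ?_, fun hM hn η hη => ?_⟩
      · rw [hdiv, tuples_eq]
        refine le_trans (le_of_eq ?_) k3
        congr 1
        rw [Fintype.card_piFinset, Finset.prod_const, Finset.card_univ, Fintype.card_fin]
        push_cast
        rfl
      · have h2 := (abs_le.1 (hA Finset.univ)).1
        rw [Finset.card_univ, Fintype.card_fin, Nat.sub_self, pow_zero, mul_one] at h2
        have h3 : share n D (fun d => ∀ j, (NoNewPart (N j) d ↔ j ∈ (Finset.univ : Finset (Fin M)))) ≤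
            share n D (fun d => ∀ (K : Type) [Field K] [NumberField K], IsField d K →
              ∀ j, Stable (N j) d K) :=
          share_mono fun d hd h K _ _ hK j =>
            stable_of (hN j) (fun i => ((mem_tup hD0 hd).1 i).1) (mem_tup hD0 hd).2
              ((h j).2 (Finset.mem_univ j)) K hK
        have h4 : ε / 2 ^ M ≤ ε := div_le_self hε.le (one_le_pow₀ (by norm_num))
        linarith
      · have h2 := (abs_le.1 (hA ∅)).2
        rw [Finset.card_empty, Nat.sub_zero, pow_zero, one_mul] at h2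
        have h3 : share n D (fun d => ∃ j, NoNewPart (N j) d) ≤ share n D (fun d => ∃ j,
            ∀ (K : Type) [Field K] [NumberField K], IsField d K → Stable (N j) d K) :=
          share_mono fun d hd ⟨j, h⟩ => ⟨j, fun K _ _ hK =>
            stable_of (hN j) (fun i => ((mem_tup hD0 hd).1 i).1) (mem_tup hD0 hd).2 h K hK⟩
        have h4 : share n D (fun d => ¬ ∃ j, NoNewPart (N j) d) ≤
            share n D (fun d => ∀ j, (NoNewPart (N j) d ↔ j ∈ (∅ : Finset (Fin M)))) :=
          share_mono fun d _ h j => by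
            refine ⟨fun h' => absurd ⟨j, h'⟩ h, fun h' => absurd h' (Finset.notMem_empty j)⟩
        rw [share_not hne] at h3
        have h5 : ε / 2 ^ M ≤ ε := div_le_self hε.le (one_le_pow₀ (by norm_num))
        linarith
      · have h2 := lln_gen hpos (Fin M) (fun j d => NoNewPart (N j) d) hp0 hp1 hA'
          (by rw [Fintype.card_fin]; exact hM) hη
        rw [Fintype.card_fin] at h2
        have h3 : (2 : ℝ) ^ M * (ε / 2 ^ M) = ε := by field_simp
        rw [h3] at h2
        rw [share_eq, div_le_iff₀ hpos]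
        exact h2
      · obtain ⟨Q', hQ'⟩ : ∃ Q' : Finset (Pn M n), Q' = Finset.univ.filter fun y => y.1 ∈ Q := ⟨_, rfl⟩
        have hcard : Q'.card = Q.card := by
          rw [hQ']
          refine Finset.card_bij (fun y _ => y.1) (fun y hy => (Finset.mem_filter.1 hy).2)
            (fun a _ b _ h => Subtype.ext h) fun y hy => ?_
          exact ⟨⟨y, hQ y hy⟩, Finset.mem_filter.2 ⟨Finset.mem_univ _, hy⟩, rfl⟩
        have h1 := k2 Q'
        rw [hcard, ← hm] at h1
        rw [share_eq, cnI_congr (Q := fun d => ∀ y : Pn M n, (gdP ρ49 nf N y d ↔ y ∈ Q')) fun d hd => ?_]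
        · exact (hdv h1).trans (div_le_self hε.le (one_le_pow₀ (by norm_num)))
        · constructor
          · intro h y
            rw [hgp d hd y, h, hQ', Finset.mem_filter]
            exact ⟨fun h => ⟨Finset.mem_univ _, h⟩, fun h => h.2⟩
          · intro h y
            by_cases hy : y.2.Nonempty
            · have h2 := h ⟨y, hy⟩
              rw [hgp d hd ⟨y, hy⟩, hQ', Finset.mem_filter] at h2
              exact h2.trans ⟨fun h => h.2, fun h => ⟨Finset.mem_univ _, h⟩⟩
            · exact ⟨fun h => absurd h.1 hy, fun h => absurd (hQ y h) hy⟩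
      · have hcP : Fintype.card (Pn M n) = m := by rw [card_Pn, hm]
        have hm0 : 0 < m := by
          rw [hm]
          refine Nat.mul_pos hM ?_
          have : 1 < 2 ^ n := Nat.one_lt_two_pow hn.ne'
          omega
        have h2 := lln_gen hpos (Pn M n) (fun y d => gdP ρ49 nf N y d) (p := κ) (δ := ε / 2 ^ m)
          (by linarith) (by linarith) (fun Q => by
            have h3 := k2 Q
            rw [← hm] at h3
            rw [hcP]
            exact h3) (by rw [hcP]; exact hm0) hη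
        rw [hcP] at h2
        have h3 : (2 : ℝ) ^ m * (ε / 2 ^ m) = ε := by field_simp
        rw [h3] at h2
        rw [share_eq, div_le_iff₀ hpos]
        refine le_trans (le_of_eq ?_) h2
        refine cE_congr fun d hd => ?_
        have h4 : pairs N d = nJ (Pn M n) (fun y => gdP ρ49 nf N y d) := by
          unfold pairs nJ
          symm
          refine Finset.card_bij (fun y _ => y.1) (fun y hy => ?_) (fun a _ b _ h => Subtype.ext h)
            fun y hy => ?_
          · exact Finset.mem_filter.2 ⟨Finset.mem_univ _, (hgp d hd y).1 (Finset.mem_filter.1 hy).2⟩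
          · have h5 := (Finset.mem_filter.1 hy).2
            exact ⟨⟨y, h5.1⟩, Finset.mem_filter.2 ⟨Finset.mem_univ _, (hgp d hd ⟨y, h5.1⟩).2 h5⟩, rfl⟩
        rw [h4]

end Pool.Agent.Results.MP_32c55d_nt.FieldsInsideDivisors
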