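import Pool.Agent.Q155.NL.N49

/-!
# The rank conjecture over the genus fields of almost all real quadratic fields of a class, for ALL the
# twists of `X_0(49)`: rank at most `1.53 [K : ℚ]`, and rank and order zero for the share `0.4194…` of the
# characters

`E_m : y² = x³ - 2835 m² x - 71442 m³` is the quadratic twist by `m` of the curve `X_0(49)`; the class
consists of the squarefree positive integers whose prime factors are `1` modulo `4`. Nothing is assumed
about the ranks of the curves `E_m`, their Tate-Shafarevich groups or their L-functions.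

Let `p_1, …, p_k` be different primes which are `1` modulo `4` and do not divide `m`, and
`K = ℚ(√p_1, …, √p_k)`. The representation of `Gal(K/ℚ)` on `E_m(K)` and the L-function of `E_m` over `K`
are composed of `2 ^ k` parts, the ranks and the L-functions of the curves `E_{m d}`, `d ∣ p_1 ⋯ p_k`. For
`ε > 0` consider the following law for `m` and `p_1, …, p_k`:

* `[K : ℚ] = 2 ^ k` and the rank of `E_m(K)` is at most `1.53 · 2 ^ k`;
* `L(E_m/K, s)` is entire and its order at `s = 1` is the sum of the orders of the entire functions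
  `L(E_{m d}, s)`;
* the share of the good `d` differs by less than `ε` from `κ = ∏ (1 - 2 ^ (-2 i - 1)) = 0.4194…`, where `d`
  is good if `E_{m d}(ℚ)` is finite, `Ш(E_{m d}/ℚ)[2] = 0` and `L(E_{m d}, 1) ≠ 0`;
* for all the good `d ≠ 1`, over the quadratic field `F = ℚ(√d)` the rank of `E_m` and the order of the
  L-function at `s = 1` are the same as over `ℚ`: the conjecture for `E_m` over `F` is equivalent to the
  conjecture over `ℚ`.

It is proved:

* (almost all the genus fields, in the natural order) There is ONE set `𝒮` of members `D` of the class,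
  of relative density one in the class (the members of the class up to `X` are counted), such that for
  EVERY `m` of the class and every `ε > 0`, for all large `D ∈ 𝒮` prime to `m` the law holds for `m` and the
  prime factors of `D`, that is, for the curve `E_m` over the field `K_D` generated by the `√p`, `p ∣ D`. This
  is the genus field of `ℚ(√D)`. (If `m` and `D` have the common divisor `g` then `E_m` is isomorphic over
  `K_D` to `E_{m/g}`.)
* (almost all the tuples) For every finite set `𝒟` of members of the class and every `ε > 0` there is a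
  constant `C` such that for all `k` and all large `X` the law holds for all `m ∈ 𝒟` for at least the
  proportion `1 - C (15/16) ^ k` of the `k`-tuples of primes `p_i ≤ X`, `p_i ≡ 1 mod 4`.
* (one infinite tower for all the curves) There is a sequence `p_1 < p_2 < ⋯` of primes such that for EVERY
  `m` of the class prime to all the `p_i` the law holds over `K_k = ℚ(√p_1, …, √p_k)` for all large `k`, with
  `ε = (31/32) ^ k`.

The usual bound (descent over `K`) for the rank over these fields is not linear in the degree, because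
the number of the ramified primes grows. The proof of the first part: almost all `D` have many prime
factors; the small ones determine the labels of the large ones, and for regular labels the symbols of the
large primes among themselves are equidistributed in boxes (bilinear sums); for random symbols the kernel
of the matrix of `m d` is a Markov chain, and for two divisors `d, d'` the large primes of `d` not dividing
`d'` make the two coranks almost independent, so the shares over the divisors of `D` have a small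
variance; an upper bound for the mean size of the kernels gives the bound for the ranks.
-/

set_option autoImplicit false

open Finset Filter NumberField IsDedekindDomain

namespace Pool.Agent.Results.MP_32c55d_nt.GenusFields

/-- coefficients of the twist `E_D : y² = x³ + A D x + B D` of `X_0(49)` -/
def A (D : ℤ) : ℤ := -2835 * D ^ 2

/-- coefficients of the twist `E_D : y² = x³ + A D x + B D` of `X_0(49)` -/
def B (D : ℤ) : ℤ := -71442 * D ^ 3

/-- the curve `E_D` over the field `K` -/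
def E (K : Type) [Field K] (D : ℤ) : WeierstrassCurve K :=
  { a₁ := 0, a₂ := 0, a₃ := 0, a₄ := (A D : K), a₆ := (B D : K) }

open Classical in
/-- the group `E_D(K)` is finitely generated -/
def FinGen (K : Type) [Field K] (D : ℤ) : Prop := Module.Finite ℤ (E K D).toAffine.Point

open Classical in
/-- the rank of `E_D(K)` -/
noncomputable def rank (K : Type) [Field K] (D : ℤ) : ℕ := Module.finrank ℤ (E K D).toAffine.Point

/-- the number `q_v` of elements of the residue field of a finite place `v` of `K` -/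
noncomputable def qv (K : Type) [Field K] (v : HeightOneSpectrum (𝓞 K)) : ℕ :=
  Nat.card (𝓞 K ⧸ v.asIdeal)

/-- `a_v = q_v + 1 - #E(k_v)`, that is `q_v` minus the number of the affine points over `k_v` -/
noncomputable def av (K : Type) [Field K] (M : ℤ) (v : HeightOneSpectrum (𝓞 K)) : ℤ :=
  (qv K v : ℤ) - Nat.card {z : (𝓞 K ⧸ v.asIdeal) × (𝓞 K ⧸ v.asIdeal) //
    z.2 ^ 2 = z.1 ^ 3 + (A M : 𝓞 K ⧸ v.asIdeal) * z.1 + (B M : 𝓞 K ⧸ v.asIdeal)}

open Classical in
/-- `F` is entire and is, for `Re s > 3/2`, the L-function of `E_M` over `K` without the Euler factors at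
the places `v ∣ 42 M m` -/
def IsL (K : Type) [Field K] (M m : ℤ) (F : ℂ → ℂ) : Prop :=
  Differentiable ℂ F ∧ ∀ s : ℂ, (3 : ℝ) / 2 < s.re →
    HasProd (fun v : HeightOneSpectrum (𝓞 K) =>
      if ((42 * M * m : ℤ) : 𝓞 K) ∈ v.asIdeal then 1 else
        (1 - (av K M v : ℂ) * (qv K v : ℂ) ^ (-s) + (qv K v : ℂ) ^ (1 - 2 * s))⁻¹) (F s)

/-- the class: squarefree, all prime factors `1` modulo `4` -/
def Class (D : ℕ) : Prop := Squarefree D ∧ ∀ p : ℕ, p.Prime → p ∣ D → p % 4 = 1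

/-- `E_D(ℚ)` is finite, `Ш(E_D/ℚ)` has no element of order two, and `L(E_D, 1) ≠ 0` -/
def Good (D : ℕ) : Prop :=
  Finite (E ℚ D).toAffine.Point ∧ (∀ x : Pool.Agent.TH841.SH.D.Sha (E ℚ D), 2 • x = 0 → x = 0) ∧
    ∀ G : ℂ → ℂ, IsL ℚ D 1 G → G 1 ≠ 0

/-- the number `κ = (1 - 1/2) (1 - 1/8) (1 - 1/32) ⋯` -/
noncomputable def κ : ℝ := ∏' i : ℕ, (1 - (1 / 2 : ℝ) ^ (2 * i + 1))

/-- `K = ℚ(√p_1, …, √p_k)` -/
def IsField {k : ℕ} (p : Fin k → ℕ) (K : Type) [Field K] [NumberField K] : Prop :=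
  ∃ x : Fin k → K, (∀ i, x i ^ 2 = (p i : K)) ∧ IntermediateField.adjoin ℚ (Set.range x) = ⊤

open Classical in
/-- the share of the divisors `d = ∏_{i ∈ U} p_i`, `U ⊆ {1, …, k}`, such that `D d` is good -/
noncomputable def share {k : ℕ} (p : Fin k → ℕ) (D : ℕ) : ℝ :=
  (Nat.card {U : Finset (Fin k) // Good (D * ∏ i ∈ U, p i)} : ℝ) / 2 ^ k

open Classical in
/-- the law for the curve `E_D` and the field `K = ℚ(√p_1, …, √p_k)` -/
def Law {k : ℕ} (p : Fin k → ℕ) (D : ℕ) (ε : ℝ) : Prop :=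
  (∀ i, ¬ p i ∣ D) ∧
  -- the twists
  (∀ U : Finset (Fin k), ∃ G : ℂ → ℂ, IsL ℚ (D * ∏ i ∈ U, p i : ℕ) 1 G) ∧
  |share p D - κ| < ε ∧
  -- the field `K`
  (∀ (K : Type) [Field K] [NumberField K], IsField p K →
    Module.finrank ℚ K = 2 ^ k ∧ FinGen K D ∧ (rank K D : ℝ) ≤ 1.53 * 2 ^ k ∧
    (∃ F : ℂ → ℂ, IsL K D (∏ i, p i : ℕ) F) ∧
    ∀ (F : ℂ → ℂ) (G : Finset (Fin k) → ℂ → ℂ), IsL K D (∏ i, p i : ℕ) F →
      (∀ U, IsL ℚ (D * ∏ i ∈ U, p i : ℕ) 1 (G U)) →
      analyticOrderAt F 1 = ∑ U : Finset (Fin k), analyticOrderAt (G U) 1) ∧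
  -- the quadratic subfields
  ∀ U : Finset (Fin k), U.Nonempty → Good (D * ∏ i ∈ U, p i) →
    ∀ (F : Type) [Field F] [NumberField F] (y : F), y ^ 2 = ((∏ i ∈ U, p i : ℕ) : F) →
      IntermediateField.adjoin ℚ {y} = ⊤ →
      rank F D = rank ℚ D ∧ (∃ Φ : ℂ → ℂ, IsL F D (∏ i ∈ U, p i : ℕ) Φ) ∧
      ∀ Φ G : ℂ → ℂ, IsL F D (∏ i ∈ U, p i : ℕ) Φ → IsL ℚ D 1 G →
        analyticOrderAt Φ 1 = analyticOrderAt G 1

open Classical in
/-- the `k`-tuples of primes `≤ X` which are `1` modulo `4` -/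
noncomputable def tuples (k X : ℕ) : Finset (Fin k → ℕ) :=
  Fintype.piFinset fun _ => (Finset.range (X + 1)).filter fun p => p.Prime ∧ p % 4 = 1

/-- the number of the positive integers up to `X` with the property `T` -/
noncomputable def count (T : ℕ → Prop) (X : ℕ) : ℕ := Nat.card {D : ℕ // (1 ≤ D ∧ D ≤ X) ∧ T D}

section proof

open Q283.GW
open Q283.GM (rk)
open Q283.XF (nf)
open Q283.J2 (RZ49)
open Pool.Agent.Y19.QT (IsLFun IsLFunK)
open _root_.Q155.KG (cr Ad P1)
open scoped Classical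

lemma class_iff (D : ℕ) : Class D ↔ C4 D := by
  unfold Class C4 CF
  constructor
  · rintro ⟨h1, h2⟩
    exact ⟨h1, fun p hp => ⟨Nat.prime_of_mem_primeFactors hp,
      h2 p (Nat.prime_of_mem_primeFactors hp) (Nat.dvd_of_mem_primeFactors hp)⟩⟩
  · rintro ⟨h1, h2⟩
    exact ⟨h1, fun p hp hd => (h2 p (Nat.mem_primeFactors.2 ⟨hp, hd, h1.ne_zero⟩)).2⟩

lemma isL_iff (K : Type) [Field K] [NumberField K] (M m : ℤ) (F : ℂ → ℂ) :
    IsL K M m F ↔ Y19.QT.IsLFunK K (-2835 * M ^ 2) (-71442 * M ^ 3) m F := by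
  have key : ∀ v : HeightOneSpectrum (𝓞 K), (((42 * M * m : ℤ) : 𝓞 K) ∈ v.asIdeal ↔
      ((2 * (4 * (-2835 * M ^ 2) ^ 3 + 27 * (-71442 * M ^ 3) ^ 2) * m : ℤ) : 𝓞 K) ∈
        v.asIdeal) := by
    intro v
    have := v.isPrime
    constructor
    · intro h1
      obtain ⟨z, hz⟩ : ∃ z : ℤ, 2 * (4 * (-2835 * M ^ 2) ^ 3 +
          27 * (-71442 * M ^ 3) ^ 2) * m = z * (42 * M * m) :=
        ⟨2 ^ 8 * 3 ^ 11 * 7 ^ 2 * M ^ 5, by ring⟩
      rw [hz, Int.cast_mul]
      exact Ideal.mul_mem_left _ _ h1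
    · intro h1
      obtain ⟨z, hz⟩ : ∃ z : ℤ, (42 * M * m) ^ 15 = z * (2 * (4 * (-2835 * M ^ 2) ^ 3 +
          27 * (-71442 * M ^ 3) ^ 2) * m) :=
        ⟨2 ^ 6 * 3 ^ 3 * 7 ^ 12 * M ^ 9 * m ^ 14, by ring⟩
      refine Ideal.IsPrime.mem_of_pow_mem this 15 ?_
      rw [← Int.cast_pow, hz, Int.cast_mul]
      exact Ideal.mul_mem_left _ _ h1
  have ha : ∀ v : HeightOneSpectrum (𝓞 K), av K M v =
      Y19.QT.av K (-2835 * M ^ 2) (-71442 * M ^ 3) v := by
    intro v
    unfold av A B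
    rfl
  unfold IsL Y19.QT.IsLFunK
  refine and_congr Iff.rfl (forall_congr' fun s => forall_congr' fun _ => ?_)
  refine Iff.of_eq (congrArg (fun f => HasProd f (F s)) (funext fun v => ?_))
  by_cases h : ((42 * M * m : ℤ) : 𝓞 K) ∈ v.asIdeal
  · rw [if_pos h, if_pos ((key v).1 h)]
  · rw [if_neg h, if_neg (fun h' => h ((key v).2 h')), ha]
    rfl

lemma isL_unique {K : Type} [Field K] [NumberField K] {M m : ℤ} {F G : ℂ → ℂ} (hF : IsL K M m F)
    (hG : IsL K M m G) : F = G :=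
  Y687.MQ.isLFunK_unique ((isL_iff _ _ _ _).1 hF) ((isL_iff _ _ _ _).1 hG)

/-- the function over `ℚ` as a number field -/
lemma lift_Q {D : ℕ} (hD : D ≠ 0) {G : ℂ → ℂ}
    (hG : IsLFun (-2835 * (D : ℤ) ^ 2) (-71442 * (D : ℤ) ^ 3) G) :
    ∃ F : ℂ → ℂ, IsL ℚ D 1 F ∧ analyticOrderAt F 1 = analyticOrderAt G 1 := by
  have hab := _root_.Q155.KG.disc49 (M := (D : ℤ)) (by exact_mod_cast hD)
  obtain ⟨F, h1, h2⟩ := Pool.Agent.Y73.QMQ1.MQ1 _ _ hab 0 (fun i => i.elim0)
    (fun T hT => by obtain ⟨i, -⟩ := hT; exact i.elim0) (fun _ => G) (fun T => by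
      have hT : T = ∅ := Finset.eq_empty_of_isEmpty T
      rw [hT, Finset.prod_empty, one_pow, one_pow, mul_one, mul_one]
      exact hG) ℚ (fun i => i.elim0) (fun i => i.elim0) (by
      rw [eq_top_iff]
      intro z _
      have := (IntermediateField.adjoin ℚ (Set.range fun i : Fin 0 => (i.elim0 : ℚ))).algebraMap_mem z
      exact this)
  refine ⟨F, (isL_iff _ _ _ _).2 ?_, ?_⟩
  · rwa [Finset.univ_eq_empty, Finset.prod_empty] at h1
  · rw [h2 1 (by norm_num), Finset.sum_const, Finset.card_univ, Fintype.card_finset, Fintype.card_fin,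
      pow_zero, one_nsmul]

lemma order_Q {D : ℕ} (hD : D ≠ 0) {F G : ℂ → ℂ} (hF : IsL ℚ D 1 F)
    (hG : IsLFun (-2835 * (D : ℤ) ^ 2) (-71442 * (D : ℤ) ^ 3) G) :
    analyticOrderAt F 1 = analyticOrderAt G 1 := by
  obtain ⟨F', h1, h2⟩ := lift_Q hD hG
  rw [isL_unique hF h1, h2]

lemma rz_eq (D : ℤ) : (Finite (E ℚ D).toAffine.Point ∧
    ∀ x : Pool.Agent.TH841.SH.D.Sha (E ℚ D), 2 • x = 0 → x = 0) ↔ RZ49 D := by
  unfold RZ49
  refine and_congr Iff.rfl (forall_congr' fun x => ?_)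
  rw [two_nsmul]
  rfl

lemma good_iff {D : ℕ} (hD : C4 D) : Good D ↔ cr D = 0 := by
  have h0 : D ≠ 0 := hD.1.ne_zero
  have h1 : RZ49 (D : ℤ) ↔ cr D = 0 := by
    rw [hD.eq]
    exact rz_CF hD.2
  constructor
  · rintro ⟨h2, h3, -⟩
    exact h1.1 ((rz_eq _).1 ⟨h2, h3⟩)
  · intro h2
    obtain ⟨h3, h4⟩ := (rz_eq _).2 (h1.2 h2)
    refine ⟨h3, h4, fun F hF => ?_⟩
    · obtain ⟨⟨G, hG, hG1⟩, -⟩ := zb_CF hD.2 h2
      rw [← hD.eq] at hG
      have h5 := order_Q h0 hF hG
      rw [hG1] at h5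
      exact (hF.1.analyticAt 1).analyticOrderAt_eq_zero.1 h5

lemma exists_L {D : ℕ} (hD : C4 D) : ∃ G : ℂ → ℂ, IsL ℚ D 1 G := by
  obtain ⟨G, hG⟩ := _root_.Q155.KG.lfun_C4 hD
  obtain ⟨F, hF, -⟩ := lift_Q hD.1.ne_zero hG
  exact ⟨F, hF⟩

lemma rank_eq (K : Type) [Field K] (D : ℤ) :
    rank K D = Pool.Agent.Y19.QT.rkK K (-2835 * D ^ 2) (-71442 * D ^ 3) := rfl

lemma rank_Q (D : ℤ) :
    rank ℚ D = Module.finrank ℤ (Pool.Agent.Y19.QT.EQ (-2835 * D ^ 2) (-71442 * D ^ 3)) := by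
  have key : ∀ i j : DecidableEq ℚ,
      (letI := i; Module.finrank ℤ (E ℚ D).toAffine.Point) =
        (letI := j; Module.finrank ℤ (E ℚ D).toAffine.Point) := by
    intro i j
    cases Subsingleton.elim i j
    rfl
  exact key _ _

lemma law_of {k : ℕ} {p : Fin k → ℕ} {D : ℕ} {ε : ℝ} (hD : C4 D)
    (hp : ∀ i, P1 (p i)) (hinj : Function.Injective p) (hpD : ∀ i, ¬ p i ∣ D) (hε : ε ≤ 0.0001)
    (h : _root_.Q155.KG.Nr (fun U : Finset (Fin k) => _root_.Q155.KG.kn (D * ∏ i ∈ U, p i)) ε) :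
    Law p D ε := by
  have hpf : ∀ i, p i ∉ D.primeFactors := fun i hi => hpD i (Nat.dvd_of_mem_primeFactors hi)
  have hC : ∀ U : Finset (Fin k), C4 (D * ∏ i ∈ U, p i) := fun U =>
    _root_.Q155.KG.ad_mul hD hp hinj hpf U
  have hind := _root_.Q155.KG.indep_primes (fun i => (hp i).1) hinj
  have hmean := _root_.Q155.KG.mean_le h (fun U => cr (D * ∏ i ∈ U, p i))
    (fun U => _root_.Q155.KG.kn_cr (hC U))
  have hpc : ((∏ i, p i : ℕ) : ℤ) = ∏ i, (p i : ℤ) := by push_cast; rfl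
  refine ⟨hpD, fun U => exists_L (hC U), ?_, ?_, ?_⟩
  · have hs : share p D =
        _root_.Q155.KG.shr (fun U : Finset (Fin k) => _root_.Q155.KG.kn (D * ∏ i ∈ U, p i)) 0 := by
      unfold share _root_.Q155.KG.shr
      congr 2
      refine Nat.card_congr (Equiv.subtypeEquivRight fun U => ?_)
      rw [good_iff (hC U)]
      show cr (D * ∏ i ∈ U, p i) = 0 ↔ _root_.Q155.KG.kn (D * ∏ i ∈ U, p i) = 2 ^ 0
      rw [_root_.Q155.KG.kn_cr (hC U)]
      exact ⟨fun h => by rw [h], fun h => Nat.pow_right_injective le_rfl h⟩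
    have h0 := h.1 0
    rw [_root_.Q155.KG.al_zero] at h0
    rw [hs]
    exact h0
  · intro K _ _ hK
    obtain ⟨x, hx, htop⟩ := hK
    have hx' : ∀ i, x i ^ 2 = (((p i : ℤ)) : K) := fun i => by rw [hx i]; push_cast; rfl
    obtain ⟨h1, h2⟩ := _root_.Q155.KG.mq_rank hD hp hinj hpf K x hx htop
    obtain ⟨G, hG, F, hF, hF1⟩ := _root_.Q155.KG.mq_order hD hp hinj hpf K x hx htop
    refine ⟨?_, h1, ?_, ⟨F, ?_⟩, fun F' G' hF' hG' => ?_⟩
    · have hgal := Pool.Agent.Y73.QMQ1.gal_of hx' htop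
      rw [← Pool.Agent.Y73.QMQ1.card_gal hind hx' htop]
      exact (IsGalois.card_aut_eq_finrank ℚ K).symm
    · have h3 : (rank K D : ℝ) ≤ ∑ U : Finset (Fin k), 2 * (cr (D * ∏ i ∈ U, p i) : ℝ) := by
        rw [rank_eq]
        exact_mod_cast h2
      rw [← Finset.mul_sum] at h3
      have h4 : (0 : ℝ) < 2 ^ k := by positivity
      rw [div_lt_iff₀ h4] at hmean
      have h5 : (0.7647 + 3 * ε) * 2 ^ k ≤ 0.765 * 2 ^ k := by
        refine mul_le_mul_of_nonneg_right ?_ h4.le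
        linarith
      linarith
    · rw [hpc]
      exact (isL_iff _ _ _ _).2 hF
    · rw [hpc] at hF'
      rw [Y687.MQ.isLFunK_unique ((isL_iff _ _ _ _).1 hF') hF, hF1]
      exact Finset.sum_congr rfl fun U _ => (order_Q (hC U).1.ne_zero (hG' U) (hG U)).symm
  · intro U hU hGd F _ _ y hy htop
    have hc := (good_iff (hC U)).1 hGd
    have hsq : ¬ IsSquare ((∏ i ∈ U, p i : ℕ) : ℤ) := by
      have h1 := hind U hU
      push_cast
      exact h1
    obtain ⟨G, hG, Φ, hΦ, hΦ1⟩ := _root_.Q155.KG.quad_order hD (hC U) hc hsq F y hy htop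
    refine ⟨?_, ⟨Φ, (isL_iff _ _ _ _).2 hΦ⟩, fun Φ' G' hΦ' hG' => ?_⟩
    · rw [rank_Q]
      exact _root_.Q155.KG.quad_rank hD (hC U) hc F y hy htop
    · rw [Y687.MQ.isLFunK_unique ((isL_iff _ _ _ _).1 hΦ') hΦ, hΦ1]
      exact (order_Q hD.1.ne_zero hG' hG).symm

lemma law_mono {k : ℕ} {p : Fin k → ℕ} {D : ℕ} {ε δ : ℝ} (h : Law p D ε) (hεδ : ε ≤ δ) : Law p D δ :=
  ⟨h.1, h.2.1, lt_of_lt_of_le h.2.2.1 hεδ, h.2.2.2⟩

lemma count_eq (T : ℕ → Prop) (X : ℕ) : count T X = _root_.Q155.NL.cnt T X := by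
  unfold count _root_.Q155.NL.cnt
  rw [Nat.card_congr (Equiv.subtypeEquivRight (q := fun D => D ∈ _root_.Q155.NL.cs T X)
    fun D => _root_.Q155.NL.mem_cs.symm), Nat.card_eq_fintype_card, Fintype.card_coe]

lemma tuples_eq (k X : ℕ) : tuples k X = _root_.Q155.KG.tupP k X := by
  unfold tuples _root_.Q155.KG.tupP
  congr 1
  funext i
  ext p
  rw [_root_.Q155.KG.mem_ps, Finset.mem_filter, Finset.mem_range, Nat.lt_succ_iff]
  exact Iff.rfl

end proof

open Classical in
/-- **The twists of `X_0(49)` over genus fields.** -/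
theorem result :
    -- almost all the genus fields, in the natural order, one set of `D` for all the curves
    (∃ 𝒮 : Set ℕ, (∀ D ∈ 𝒮, Class D) ∧
      Tendsto (fun X : ℕ => (count (fun D => D ∈ 𝒮) X : ℝ) / (count Class X : ℝ)) atTop (nhds 1) ∧
      ∀ m : ℕ, Class m → ∀ ε : ℝ, 0 < ε → ∀ᶠ D : ℕ in atTop, D ∈ 𝒮 → Nat.Coprime m D →
        ∀ (k : ℕ) (p : Fin k → ℕ), (∀ i, (p i).Prime) → ∏ i, p i = D → Law p m ε) ∧
    -- almost all the tuples of primes
    (∀ 𝒟 : Finset ℕ, (∀ m ∈ 𝒟, Class m) → ∀ ε : ℝ, 0 < ε → ∃ C : ℝ, ∀ k : ℕ, ∃ X₀ : ℕ, ∀ X : ℕ,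
      X₀ ≤ X → (1 - C * (15 / 16) ^ k) * ((tuples k X).card : ℝ) ≤
        (((tuples k X).filter fun p => Function.Injective p ∧ ∀ m ∈ 𝒟, Law p m ε).card : ℝ)) ∧
    -- one sequence of primes for all the curves
    (∃ p : ℕ → ℕ, StrictMono p ∧ (∀ i, (p i).Prime ∧ p i % 4 = 1) ∧
      ∀ m : ℕ, Class m → (∀ i, ¬ p i ∣ m) → ∃ k₀ : ℕ, ∀ k : ℕ, k₀ ≤ k →
        Law (fun i : Fin k => p i) m ((31 / 32) ^ k)) ∧
    0.4194 < κ ∧ κ < 0.4195 := by
  classical
  refine ⟨?_, fun 𝒟 h𝒟 ε hε => ?_, ?_, Pool.Agent.Y948.CQ.t_C2.2.2.2.1,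
    Pool.Agent.Y948.CQ.t_C2.2.2.2.2⟩
  · obtain ⟨S, h1, h2, h3⟩ := _root_.Q155.NL.dense49
    refine ⟨{D | S D}, fun D hD => (class_iff D).2 (h1 D hD), ?_, fun m hm ε hε => ?_⟩
    · refine h2.congr fun X => ?_
      rw [count_eq, count_eq, show Class = Q283.GW.C4 from funext fun D => propext (class_iff D)]
      rfl
    · have hm' := (class_iff m).1 hm
      filter_upwards [h3 m hm' (min ε 0.0001) (lt_min hε (by norm_num))] with D hD hS hc k p hp
        hprod
      have hD' := h1 D hS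
      have h4 := _root_.Q155.NL.nr49 hm' hD' hc (hD hS) hp hprod
      have hpd : ∀ i, p i ∣ D := fun i => hprod ▸ Finset.dvd_prod_of_mem p (Finset.mem_univ i)
      have hp1 : ∀ i, _root_.Q155.KG.P1 (p i) := fun i => hD'.2 (p i)
        (Nat.mem_primeFactors.2 ⟨hp i, hpd i, hD'.1.ne_zero⟩)
      have hinj : Function.Injective p := by
        intro i j hij
        by_contra hne
        have h5 : p i * p j ∣ ∏ i, p i := by
          have h6 := Finset.prod_dvd_prod_of_subset {i, j} Finset.univ p (Finset.subset_univ _)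
          rwa [Finset.prod_pair hne] at h6
        rw [hprod, hij] at h5
        exact (hp j).one_lt.ne' (Nat.isUnit_iff.1 (hD'.1 (p j) h5))
      have hpm : ∀ i, ¬ p i ∣ m := fun i h5 => (hp i).one_lt.ne'
        (Nat.dvd_one.1 (hc ▸ Nat.dvd_gcd h5 (hpd i)))
      exact law_mono (law_of hm' hp1 hinj hpm (min_le_right _ _) h4) (min_le_left _ _)
  · obtain ⟨C, hC⟩ := _root_.Q155.KG.divisors_law (𝒟 := 𝒟) (fun D hD => (class_iff D).1 (h𝒟 D hD))
      (ε := min ε 0.0001) (lt_min hε (by norm_num))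
    refine ⟨C, fun k => ?_⟩
    obtain ⟨X₀, hX₀⟩ := hC k
    refine ⟨X₀, fun X hX => ?_⟩
    rw [tuples_eq]
    refine (hX₀ X hX).trans ?_
    refine (Nat.cast_le (α := ℝ)).2 (Finset.card_le_card fun p hp => ?_)
    obtain ⟨h1, h2, h3⟩ := Finset.mem_filter.1 hp
    refine Finset.mem_filter.2 ⟨h1, h2, fun D hD => ?_⟩
    exact law_mono (law_of ((class_iff D).1 (h𝒟 D hD))
      (fun i => (_root_.Q155.KG.mem_tupP.1 h1 i).2) h2 (h3 D hD).1 (min_le_right _ _) (h3 D hD).2)
      (min_le_left _ _)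
  · obtain ⟨p, h1, h2, h3⟩ := _root_.Q155.KG.sequence_law
    refine ⟨p, h1, fun i => ⟨(h2 i).1.1, (h2 i).1.2⟩, fun D hD hpD => ?_⟩
    obtain ⟨k₀, hk₀⟩ := h3 D ((class_iff D).1 hD) hpD
    obtain ⟨k₁, hk₁⟩ := ((tendsto_pow_atTop_nhds_zero_of_lt_one (r := (31 / 32 : ℝ)) (by norm_num)
      (by norm_num)).eventually (gt_mem_nhds (show (0 : ℝ) < 0.0001 by norm_num))).exists_forall_of_atTop
    refine ⟨max k₀ k₁, fun k hk => law_of ((class_iff D).1 hD) (fun i => (h2 i).1) ?_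
      (fun i => hpD i) (hk₁ k ((le_max_right _ _).trans hk)).le (hk₀ k ((le_max_left _ _).trans hk))⟩
    intro i j hij
    exact Fin.ext (h1.injective hij)

end Pool.Agent.Results.MP_32c55d_nt.GenusFields
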