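import Pool.Agent.Q161.ESL.All

/-!
# The ranks of elliptic curves over the genus fields of a number field

Let `F` be any number field.  For a finite set `A` of prime ideals of `F` let `K_A` be the extension of `F` generated by the square
roots of all `c ∈ F^*` which have even valuation at all primes outside `A` (`F = ℚ`: `K_A = ℚ(√-1, √p : p ∈ A)`).  This is a
Galois extension with group `(ℤ/2)^m`, `2^m` between `2^#A / C` and `C 2^#A`, so its degree is not bounded when `A` varies.
Let `E_i : y² = x³ + a_i x + b_i`, `1 ≤ i ≤ r`, be elliptic curves over `F` without `F`-rational point of order two, and `R(K)` the sum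
of the ranks of the `E_i(K)`.  We prove that the quotient `R(K_A)/[K_A : F]` is bounded on average, with all exponential
moments, if `A` runs over all finite sets of prime ideals, `N(A) = ∏_{v ∈ A} N v ≤ X`, with the weights `(2M)^#A`, `M = 1, 2, 3, ..`; and
the `j`-th moment of `R(K_A)` is at most a constant times the `j`-th moment of the degree `[K_A : F]`.

Proof.  `R(K_A) ≤ ∑_d ρ(d)`, where `d` runs over the `2^m` classes in `F^*/F^*²` with odd support in `A`, `ρ(d)` the sum of the
ranks of the twists of the `E_i` by `d`.  By Jensen's inequality `2^(k R(K_A)/[K_A : F])` is at most the mean of `2^(k ρ(d))`.  Interchange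
the sums over `A` and `d`: this gives the sum over all quadratic twists with the weights `M^ω(d)`, for which project ESB (the same project as
for `MP_7cad78_nt` and `MP_1a91b9_nt`) has bounds of the right order.
Project of helper161 with helpers 14, 24, 26, 38, 63, 65, 68, 79, 92, 96, 121, 123, 124, 129, 147, 149, 150, 151, 153, 164,
166, 177, 182, 184, 190, 193, 195, 208, 210, 211, 214, 223, 224, 237, 238, 241, 252, 261, 275, 285, 299.
-/

set_option autoImplicit false

namespace Pool.Agent.Results.MP_32c55d_nt.RanksOverGenusFields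

open Finset NumberField IsDedekindDomain Pool.Agent.Q161.ESL

open Pool.Agent.Q161.ESN.Quad (rankOver)

open scoped Classical

/-- Let `F` be any number field.  (I) There is a `C ≥ 1` such that for every finite set `A` of prime ideals of `F` the genus field
`K_A` exists, and it is a Galois extension of `F` whose group has exponent at most two, and `2^#A / C ≤ [K_A : F] ≤ C 2^#A`.  (II) For
every `W ≥ 1` there is a `C ≥ 1` such that for all `X ≥ 1`: there are complete families of the `K_A`, `N(A) ≤ X` (each `A` once), and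
for these the sum of `W^#A` is at most `C X (1 + log X)^(W-1)` and at least `X (1 + log X)^(W-1) / C`.  (III) Let `E_i : y² = x³ + a_i x + b_i`
be elliptic curves over `F` without `F`-rational points of order two, and `R(K)` the sum of the ranks of the `E_i(K)`,
`ρ(K) = R(K)/[K : F]`.  (a) For all `M ≥ 1`, `k ≥ 0` there is a `C` such that for all `X ≥ 1` and all families of genus fields `K_A` for
different `A` with `N(A) ≤ X` the sum of `(2M)^#A 2^(k ρ(K_A))` is at most `C X (1 + log X)^(2M-1)`; and if the family is complete it is at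
most `C` times the sum of `(2M)^#A`, and for all real `t` the sum of `(2M)^#A` over the `A` with `ρ(K_A) ≥ t` is at most
`C 2^(-kt)` times the sum over all `A`.  (b) For all `j ≥ 1` there is a `C` such that for all complete families the sum of
`R(K_A)^j` is at most `C` times the sum of `[K_A : F]^j`. -/
theorem result (F : Type) [Field F] [NumberField F] :
    (∃ C : ℝ, 1 ≤ C ∧ ∀ A : Finset (HeightOneSpectrum (𝓞 F)),
      (∃ (K : Type) (_ : Field K) (_ : NumberField K) (_ : Algebra F K), GenusField F A K) ∧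
      ∀ (K : Type) [Field K] [NumberField K] [Algebra F K], GenusField F A K →
        IsGalois F K ∧ (∀ σ : K ≃ₐ[F] K, σ * σ = 1) ∧ (2 : ℝ) ^ A.card / C ≤ Module.finrank F K ∧
          (Module.finrank F K : ℝ) ≤ C * 2 ^ A.card) ∧
    (∀ W : ℕ, 1 ≤ W → ∃ C : ℝ, 1 ≤ C ∧ ∀ X : ℝ, 1 ≤ X →
      (∃ (n : ℕ) (A : Fin n → Finset (HeightOneSpectrum (𝓞 F))) (K : Fin n → Type)
        (_ : ∀ i, Field (K i)) (_ : ∀ i, NumberField (K i)) (_ : ∀ i, Algebra F (K i)),
        AllGenus F X A K) ∧
      ∀ (n : ℕ) (A : Fin n → Finset (HeightOneSpectrum (𝓞 F))) (K : Fin n → Type)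
        [∀ i, Field (K i)] [∀ i, NumberField (K i)] [∀ i, Algebra F (K i)], AllGenus F X A K →
        X * (1 + Real.log X) ^ (W - 1) / C ≤ massA W A ∧
          massA W A ≤ C * X * (1 + Real.log X) ^ (W - 1)) ∧
    ∀ (r : ℕ) (a b : Fin r → F), (∀ i, ∀ x : F, x ^ 3 + a i * x + b i ≠ 0) →
      (∀ M : ℕ, 1 ≤ M → ∀ k : ℕ, ∃ C : ℝ, 0 < C ∧ ∀ (X : ℝ) (n : ℕ)
        (A : Fin n → Finset (HeightOneSpectrum (𝓞 F))) (K : Fin n → Type)
        [∀ i, Field (K i)] [∀ i, NumberField (K i)] [∀ i, Algebra F (K i)], 1 ≤ X →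
        (Genus F X A K →
          ∑ i, ((2 * M : ℕ) : ℝ) ^ (A i).card * (2 : ℝ) ^ ((k : ℝ) * relRank a b (K i)) ≤
            C * X * (1 + Real.log X) ^ (2 * M - 1)) ∧
        (AllGenus F X A K →
          (∑ i, ((2 * M : ℕ) : ℝ) ^ (A i).card * (2 : ℝ) ^ ((k : ℝ) * relRank a b (K i)) ≤
            C * massA (2 * M) A) ∧
          ∀ t : ℝ, ∑ i ∈ univ.filter (fun i => t ≤ relRank a b (K i)),
            ((2 * M : ℕ) : ℝ) ^ (A i).card ≤ C * massA (2 * M) A / 2 ^ ((k : ℝ) * t))) ∧
      ∀ j : ℕ, 1 ≤ j → ∃ C : ℝ, 0 < C ∧ ∀ (X : ℝ) (n : ℕ)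
        (A : Fin n → Finset (HeightOneSpectrum (𝓞 F))) (K : Fin n → Type)
        [∀ i, Field (K i)] [∀ i, NumberField (K i)] [∀ i, Algebra F (K i)], 1 ≤ X →
        AllGenus F X A K →
          ∑ i, (rankOver a b (K i) : ℝ) ^ j ≤ C * ∑ i, (Module.finrank F (K i) : ℝ) ^ j := by
  refine ⟨?_, fun W hW => ?_, fun r a b h => ⟨fun M hM k => ?_, fun j hj => ?_⟩⟩
  · obtain ⟨C, hC, h⟩ := degree t_kmr t_deg F
    exact ⟨C, hC, fun A => ⟨t_kgf F A, fun K _ _ _ hK => h A K hK⟩⟩
  · obtain ⟨C1, hC1, h1⟩ := massA_le t_idw F W hW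
    obtain ⟨C2, hC2, h2⟩ := massA_ge t_lwa F W hW
    refine ⟨max C1 C2, hC2.trans (le_max_right _ _), fun X hX =>
      ⟨exists_complete t_idw t_kgf F X hX, fun n A K _ _ _ hG => ⟨?_, ?_⟩⟩⟩
    · rw [div_le_iff₀ (by linarith [le_max_right C1 C2])]
      calc X * (1 + Real.log X) ^ (W - 1) ≤ C2 * massA W A := h2 X hX n A hG.inj hG.all
        _ ≤ max C1 C2 * massA W A :=
          mul_le_mul_of_nonneg_right (le_max_right _ _) (massA_nonneg W A)
        _ = _ := mul_comm _ _
    · refine (h1 X hX n A hG.inj hG.norm).trans ?_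
      have hlX : 0 ≤ Real.log X := Real.log_nonneg hX
      have := le_max_left C1 C2
      gcongr
  · exact mainK t_kmr t_deg t_dbl t_lwa _ (ctl_ell h) M hM k
  · exact momentK t_kmr t_deg t_dbl t_lwa _ (ctl_ell h) j hj

end Pool.Agent.Results.MP_32c55d_nt.RanksOverGenusFields
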