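import Pool.Agent.Q207.NS.Hv2
import Pool.Agent.Q282.JB.Sq
import Pool.Agent.Q282.JK.RankK
import Pool.Agent.Q282.JK.Prod

/-!
# The products of Birch and Swinnerton-Dyer and the sums of Mestre and Nagao are asymptotically independent

For an elliptic curve `E` over a number field `K` there are two classical ways to read the order of vanishing of `L(E/K, s)` at
`s = 1`, that is the rank predicted by the conjecture of Birch and Swinnerton-Dyer, from the numbers of points `#E(k_v)`:
the products `P(Y) = ∏_{q_v ≤ Y} #E(k_v) / q_v` of Birch and Swinnerton-Dyer, which should grow like `(log Y) ^ rank`, and the sums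
`N(X, Y) = - (log X)⁻¹ ∑_{q_v ≤ Y} a_v log q_v / q_v`, `a_v = q_v + 1 - #E(k_v)`, of Mestre and Nagao, which come from the logarithmic
derivative. The first one is a process on the scale `log log X`, the second one on the scale `log X`.

Here the joint law of the two processes is determined for the families of the elliptic curves over `K` with `r = 0, 1, 2` marked
points, and for the Jacobians of the curves of genus `g ≥ 1` over `K` with `0 ≤ r ≤ g` marked points,
`C_t : y ^ 2 = f_t(x) = (x - a_1) ⋯ (x - a_r) h(x) + l(x) ^ 2`, `h` monic of degree `2 g + 1 - r`, `deg l < r`, where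
`P(Y) = ∏_{q_v ≤ Y} #J_t(k_v) / q_v ^ g` and `a_v = q_v + 1 - #C_t(k_v)`. Let `X → ∞` and let the coordinates of the parameters `t` in
a `ℤ`-basis of the ring of integers of `K` be taken at random in any box with sides at least `X ^ k`, where `k → ∞` with `X` as slowly
as one likes. Then the pair of processes
`s ↦ (log P(exp ((log X) ^ s)) - (r + 1 / 2) s log log X) / sqrt (log log X)` and `s ↦ √2 (N(X, X ^ √s) - r √s)`, `0 < s ≤ 1`,
converges to a pair of independent Brownian motions, uniformly in the basis and in the box, while the rank is at least `r`. For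
`s = 1`: `(log P(X) - (r + 1 / 2) log log X) / sqrt (log log X)` and `√2 (N(X, X) - r)` are asymptotically independent standard normal
variables. So the two statistics see the rank with independent errors: the errors of the first one come from the primes `v` with
`log q_v = (log X) ^ o(1)`, and those of the second one from the primes with `log q_v = (log X) ^ (1 - o(1))`.

Proof. For both processes the local values are functions of the residues modulo `v` with known means and mean squares over the family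
over the residue field. The covariance of the two processes is at most a constant times
`∑_{p ≤ X} (log log X)^(-1/2) (log p / log X) / p = O((log log X)^(-1/2))`. The characteristic functions of linear combinations are
compared with those of independent variables by a Taylor polynomial of large degree, the chinese remainder theorem and exponential
moments; the theorem of Lévy on characteristic functions is in Mathlib. The rank is at least `r` outside a small set by a sieve.
-/

set_option autoImplicit false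

namespace Pool.Agent.Results.MP_32c55d_nt.TwoScales

open Finset NumberField IsDedekindDomain
open scoped NNReal Polynomial

/-- The integer part of `exp ((log X) ^ s)`. -/
noncomputable def time (X : ℕ) (s : ℝ) : ℕ := ⌊Real.exp (Real.log X ^ s)⌋₊

/-- `(log P(exp ((log X) ^ s)) - (r + 1 / 2) s log log X) / sqrt (log log X)` for the function `P`. -/
noncomputable def productDeviation (r : ℕ) (P : ℕ → ℝ) (X : ℕ) (s : ℝ) : ℝ :=
  (Real.log (P (time X s)) - (r + 1 / 2) * s * Real.log (Real.log X)) / Real.sqrt (Real.log (Real.log X))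

/-- `√2 (N(X, X ^ √s) - r √s)` for the function `N`. -/
noncomputable def sumDeviation (r : ℕ) (N : ℕ → ℝ → ℝ) (X : ℕ) (s : ℝ) : ℝ :=
  Real.sqrt 2 * (N X ((X : ℝ) ^ Real.sqrt s) - r * Real.sqrt s)

section

variable {K : Type} [Field K] [NumberField K]

/-- For the curve `E : y ^ 2 = x ^ 3 + b x ^ 2 + c x + d`, `C = (b, c, d)`: `N(X, Y) = - (log X)⁻¹ ∑ a_v log q_v / q_v`,
`a_v = q_v + 1 - #E(k_v)`, the sum over all primes `v` of `K` not dividing twice the discriminant with `q_v ≤ Y`; here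
`#E(k_v) = points C v + 1`. -/
noncomputable def nagaoE (C : 𝓞 K × 𝓞 K × 𝓞 K) (X : ℕ) (Y : ℝ) : ℝ :=
  -(∑ᶠ v ∈ {v : HeightOneSpectrum (𝓞 K) | Q282.NF.Good C v ∧ (Ideal.absNorm v.asIdeal : ℝ) ≤ Y},
    ((Ideal.absNorm v.asIdeal : ℝ) + 1 - ((Q282.NF.points C v : ℝ) + 1)) * Real.log (Ideal.absNorm v.asIdeal) /
      Ideal.absNorm v.asIdeal) / Real.log X

/-- For the curve `C : y ^ 2 = f(x)`: `N(X, Y) = - (log X)⁻¹ ∑ a_v log q_v / q_v`, `a_v = q_v + 1 - #C(k_v)`, the sum over all primes
`v` of `K` with `Good f v` and `q_v ≤ Y`; here `#C(k_v) = points f v 1 + 1`. -/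
noncomputable def nagaoJ (f : (𝓞 K)[X]) (X : ℕ) (Y : ℝ) : ℝ :=
  -(∑ᶠ v ∈ {v : HeightOneSpectrum (𝓞 K) | Q282.JK.Good f v ∧ (Ideal.absNorm v.asIdeal : ℝ) ≤ Y},
    ((Ideal.absNorm v.asIdeal : ℝ) + 1 - ((Q282.JK.points f v 1 : ℝ) + 1)) * Real.log (Ideal.absNorm v.asIdeal) /
      Ideal.absNorm v.asIdeal) / Real.log X

open Classical in
/-- `E_t` is an elliptic curve over `K` with at least `r` independent `K`-rational points. -/
def RankE (r : ℕ) (t : Fin (r + 3) → 𝓞 K) : Prop :=
  (Q282.NF.curve (Q282.NF.family r t)).IsElliptic ∧ (r : Cardinal) ≤ Module.rank ℤ (Q282.NF.curve (Q282.NF.family r t)).toAffine.Point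

end

/-- The polynomial `f` of odd degree over the ring of integers of `K` is irreducible over `K`, and the group of the `K`-rational
points of the Jacobian of the curve `y ^ 2 = f(x)`, which is the class group of its affine coordinate ring over `K`, has rank at
least `r`. -/
def RankJ (K : Type) [Field K] [NumberField K] (r : ℕ) (f : (𝓞 K)[X]) : Prop :=
  Irreducible (f.map (algebraMap (𝓞 K) K)) ∧ Q282.JK.HasClassRank (Q282.JK.CoordRing (f.map (algebraMap (𝓞 K) K))) r

/-- The distribution function of the Brownian motion `B` at the times `s ∈ I`: the probability that `B_s ≤ x_s` for all `s ∈ I`. -/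
noncomputable def brownian (I : Finset ℝ≥0) (x : I → ℝ) : ℝ :=
  (ProbabilityTheory.BrownianReal.projectiveFamily I (Set.Iic x)).toReal

/-- The box of the integers `n k` with `N k ≤ n k < N k + L k` for all `k`. -/
noncomputable def box {κ : Type} [Fintype κ] [DecidableEq κ] (N : κ → ℤ) (L : κ → ℕ) : Finset (κ → ℤ) :=
  Fintype.piFinset fun k => Ico (N k) (N k + L k)

/-- The elements `t i = ∑ n (i, j) b j` with the coordinates `n (i, j)`. -/
def combine {O : Type} [CommRing O] {ι : Type} {d : ℕ} (b : Fin d → O) (n : ι × Fin d → ℤ) : ι → O :=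
  fun i => ∑ j, (n (i, j) : O) * b j

open Classical in
/-- The proportion of the `n` of the box with the property `P`. -/
noncomputable def proportion {κ : Type} [Fintype κ] [DecidableEq κ] (N : κ → ℤ) (L : κ → ℕ) (P : (κ → ℤ) → Prop) : ℝ :=
  (((box N L).filter P).card : ℝ) / ∏ k, (L k : ℝ)

/-! ### Proofs -/

lemma proportion_eq {κ : Type} [Fintype κ] [DecidableEq κ] (N : κ → ℤ) (L : κ → ℕ) (P : (κ → ℤ) → Prop) [DecidablePred P] :
    proportion N L P = (((box N L).filter P).card : ℝ) / ∏ k, (L k : ℝ) := by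
  classical
  unfold proportion
  congr 2
  refine congrArg Finset.card ?_
  ext t
  simp only [mem_filter]

lemma basis_span {K : Type} [Field K] [NumberField K] (b : Module.Basis (Fin (Module.finrank ℚ K)) ℤ (𝓞 K)) :
    ∀ x : 𝓞 K, ∃ a : Fin (Module.finrank ℚ K) → ℤ, x = ∑ j, (a j : 𝓞 K) * b j := by
  intro x
  refine ⟨fun j => b.repr x j, ?_⟩
  have h1 := b.sum_repr x
  rw [← h1]
  refine sum_congr rfl fun j _ => ?_
  rw [h1, zsmul_eq_mul]

/-- intersection with the rank condition -/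
lemma with_rank {κ : Type} [Fintype κ] [DecidableEq κ] (N : κ → ℤ) (L : κ → ℕ) (hL : 0 < ∏ k, (L k : ℝ)) (P R : (κ → ℤ) → Prop) (w ε : ℝ)
    (h1 : |proportion N L P - w| ≤ ε / 2) (h2 : proportion N L (fun n => ¬ R n) ≤ ε / 2) :
    |proportion N L (fun n => R n ∧ P n) - w| ≤ ε := by
  classical
  have h6 : proportion N L (fun n => R n ∧ P n) ≤ proportion N L P := by
    rw [proportion_eq, proportion_eq]
    refine div_le_div_of_nonneg_right ?_ hL.le
    have : (box N L).filter (fun n => R n ∧ P n) ⊆ (box N L).filter P := by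
      intro t ht
      rw [mem_filter] at ht ⊢
      exact ⟨ht.1, ht.2.2⟩
    exact_mod_cast card_le_card this
  have h7 : proportion N L P ≤ proportion N L (fun n => R n ∧ P n) + proportion N L (fun n => ¬ R n) := by
    rw [proportion_eq, proportion_eq, proportion_eq, ← add_div]
    refine div_le_div_of_nonneg_right ?_ hL.le
    have : (box N L).filter P ⊆ (box N L).filter (fun n => R n ∧ P n) ∪ (box N L).filter (fun n => ¬ R n) := by
      intro t ht
      rw [mem_filter] at ht
      rw [mem_union, mem_filter, mem_filter]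
      by_cases hR : R t
      · exact Or.inl ⟨ht.1, hR, ht.2⟩
      · exact Or.inr ⟨ht.1, hR⟩
    exact_mod_cast (card_le_card this).trans (card_union_le _ _)
  have h10 := abs_le.1 h1
  rw [abs_le]
  constructor <;> linarith

section

variable {K : Type} [Field K] [NumberField K]

/-- the products -/
lemma product_eq {X : ℕ} (hX : 16 ≤ X) {s : ℝ} (hs : s ≤ 1) (r : ℕ) (P : ℕ → ℝ) (val : HeightOneSpectrum (𝓞 K) → ℝ)
    (hP : ∀ Y, Real.log (P Y) = ∑ v ∈ Q282.GK.SX K Y, val v) :
    productDeviation r P X s = ∑ v ∈ Q282.GK.SX K X, Q207.NS.cc false X s (Ideal.absNorm v.asIdeal) * val v -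
      Q207.NS.mm false (r + 1 / 2) X s := by
  classical
  have hll := Q207.NS.ll_one hX
  have hsq0 : 0 < Real.sqrt (Real.log (Real.log X)) := Real.sqrt_pos.2 (by linarith)
  have hsq : Real.sqrt (Real.log (Real.log X)) * Real.sqrt (Real.log (Real.log X)) = Real.log (Real.log X) :=
    Real.mul_self_sqrt (by linarith)
  have h1 : ∑ v ∈ Q282.GK.SX K X, Q207.NS.cc false X s (Ideal.absNorm v.asIdeal) * val v =
      (∑ v ∈ Q282.GK.SX K (Q282.CL.tm X s), val v) / Real.sqrt (Real.log (Real.log X)) := by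
    have h2 : Q282.GK.SX K (Q282.CL.tm X s) = (Q282.GK.SX K X).filter fun v => Ideal.absNorm v.asIdeal ≤ Q282.CL.tm X s := by
      ext v
      rw [mem_filter, Q282.GK.mem_SX, Q282.GK.mem_SX]
      have h3 := Q282.CL.tm_le (by omega : 3 ≤ X) hs
      constructor
      · intro h4
        exact ⟨h4.trans h3, h4⟩
      · exact fun h4 => h4.2
    rw [h2, sum_filter, sum_div]
    refine sum_congr rfl fun v _ => ?_
    unfold Q207.NS.cc Q207.NS.ce
    rw [if_neg (by simp)]
    split_ifs
    · ring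
    · ring
  rw [h1]
  unfold productDeviation Q207.NS.mm
  rw [if_neg (by simp), hP, sub_div]
  congr 1
  rw [div_eq_iff hsq0.ne', mul_assoc _ (Real.sqrt _) (Real.sqrt _), hsq]

/-- the sums -/
lemma sum_eq {X : ℕ} (hX : 1 ≤ X) {s : ℝ} (hs : s ≤ 1) (r : ℕ) (G : HeightOneSpectrum (𝓞 K) → Prop) (tr val : HeightOneSpectrum (𝓞 K) → ℝ)
    (h1 : ∀ v, G v → val v = -(tr v / Ideal.absNorm v.asIdeal)) (h0 : ∀ v, ¬ G v → val v = 0) :
    sumDeviation r (fun X Y => -(∑ᶠ v ∈ {v : HeightOneSpectrum (𝓞 K) | G v ∧ (Ideal.absNorm v.asIdeal : ℝ) ≤ Y},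
      tr v * Real.log (Ideal.absNorm v.asIdeal) / Ideal.absNorm v.asIdeal) / Real.log X) X s =
    ∑ v ∈ Q282.GK.SX K X, Q207.NS.cc true X s (Ideal.absNorm v.asIdeal) * val v - Q207.NS.mm true r X s := by
  classical
  have hX0 : (0 : ℝ) ≤ (X : ℝ) ^ Real.sqrt s := by positivity
  have h2 : {v : HeightOneSpectrum (𝓞 K) | G v ∧ (Ideal.absNorm v.asIdeal : ℝ) ≤ (X : ℝ) ^ Real.sqrt s} =
      (((Q282.GK.SX K X).filter fun v => G v ∧ Ideal.absNorm v.asIdeal ≤ Q282.MN.tx X s : Finset (HeightOneSpectrum (𝓞 K))) :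
        Set (HeightOneSpectrum (𝓞 K))) := by
    ext v
    rw [Set.mem_ofPred_eq, mem_coe, mem_filter, Q282.GK.mem_SX]
    unfold Q282.MN.tx
    rw [Nat.le_floor_iff hX0]
    constructor
    · rintro ⟨h1, h2⟩
      refine ⟨?_, h1, h2⟩
      have h3 := Q282.MN.tx_le hX hs
      unfold Q282.MN.tx at h3
      exact ((Nat.le_floor_iff hX0).2 h2).trans h3
    · rintro ⟨_, h1, h2⟩
      exact ⟨h1, h2⟩
  unfold sumDeviation Q207.NS.mm
  rw [if_pos rfl]
  have h3 : Real.sqrt 2 * (-(∑ᶠ v ∈ {v : HeightOneSpectrum (𝓞 K) | G v ∧ (Ideal.absNorm v.asIdeal : ℝ) ≤ (X : ℝ) ^ Real.sqrt s},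
      tr v * Real.log (Ideal.absNorm v.asIdeal) / Ideal.absNorm v.asIdeal) / Real.log X) =
      ∑ v ∈ Q282.GK.SX K X, Q207.NS.cc true X s (Ideal.absNorm v.asIdeal) * val v := by
    rw [h2, finsum_mem_coe_finset, sum_filter, ← sum_neg_distrib, sum_div, mul_sum]
    refine sum_congr rfl fun v _ => ?_
    unfold Q207.NS.cc Q282.MN.cw
    rw [if_pos rfl]
    by_cases h3 : G v
    · by_cases h4 : Ideal.absNorm v.asIdeal ≤ Q282.MN.tx X s
      · rw [if_pos ⟨h3, h4⟩, if_pos h4, h1 v h3]
        ring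
      · rw [if_neg fun h => h4 h.2, if_neg h4]
        ring
    · rw [if_neg fun h => h3 h.1, h0 v h3]
      ring
  rw [← h3]
  ring

/-- the common part of the proofs -/
theorem both (K : Type) [Field K] [NumberField K] (ι : Type) [Fintype ι] [DecidableEq ι] (P₀ r : ℕ) (B : ℝ) (hB : 0 ≤ B)
    (valP valN : HeightOneSpectrum (𝓞 K) → (ι → 𝓞 K) → ℝ) (hP : Q282.MN.Loc2 K ι P₀ (r + 1 / 2) B valP) (hN : Q282.MN.Loc2 K ι P₀ r B valN)
    (Rk : (ι → 𝓞 K) → Prop) (pr : (ι → 𝓞 K) → ℕ → ℝ) (nag : (ι → 𝓞 K) → ℕ → ℝ → ℝ)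
    (hpr : ∀ t Y, Real.log (pr t Y) = ∑ v ∈ Q282.GK.SX K Y, valP v t)
    (hnag : ∀ (t : ι → 𝓞 K) (X : ℕ), 1 ≤ X → ∀ s : ℝ, s ≤ 1 → sumDeviation r (nag t) X s =
      ∑ v ∈ Q282.GK.SX K X, Q207.NS.cc true X s (Ideal.absNorm v.asIdeal) * valN v t - Q207.NS.mm true r X s)
    (hrank : ∀ ε : ℝ, 0 < ε → ∃ X₁ : ℕ, ∀ X : ℕ, X₁ ≤ X → ∀ (b : Module.Basis (Fin (Module.finrank ℚ K)) ℤ (𝓞 K))
      (N : ι × Fin (Module.finrank ℚ K) → ℤ) (L : ι × Fin (Module.finrank ℚ K) → ℕ), (∀ k, (X : ℝ) ≤ L k) →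
      proportion N L (fun n => ¬ Rk (combine b n)) ≤ ε)
    (I : Finset ℝ≥0) (hI : ∀ s ∈ I, 0 < s ∧ s ≤ 1) (x y : I → ℝ) (ε : ℝ) (hε : 0 < ε) :
    ∃ X₁ : ℕ, ∀ X : ℕ, X₁ ≤ X → ∀ (b : Module.Basis (Fin (Module.finrank ℚ K)) ℤ (𝓞 K))
      (N : ι × Fin (Module.finrank ℚ K) → ℤ) (L : ι × Fin (Module.finrank ℚ K) → ℕ), (∀ k, X ^ X₁ ≤ L k) →
      |proportion N L (fun n => Rk (combine b n) ∧ ∀ s : I, productDeviation r (pr (combine b n)) X (s : ℝ≥0) ≤ x s ∧
        sumDeviation r (nag (combine b n)) X (s : ℝ≥0) ≤ y s) - brownian I x * brownian I y| ≤ ε := by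
  classical
  obtain ⟨X₁, h⟩ := Q207.NS.two_law K ι (T := Bool) P₀ B hB I hI id (fun t => if t = true then (r : ℝ) else r + 1 / 2)
    (fun a => if a.1 = true then y a.2 else x a.2) (ε / 2) (by positivity)
  obtain ⟨X₂, h2⟩ := hrank (ε / 2) (by positivity)
  refine ⟨max 16 (max X₁ X₂), fun X hX b N L hL => ?_⟩
  have hX16 : 16 ≤ X := (le_max_left _ _).trans hX
  have hX1 : X₁ ≤ X := (le_max_left _ _).trans ((le_max_right _ _).trans hX)
  have hX2 : X₂ ≤ X := (le_max_right _ _).trans ((le_max_right _ _).trans hX)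
  have hX0 : (16 : ℝ) ≤ X := by exact_mod_cast hX16
  have hL1 : ∀ k, (X : ℝ) ^ X₁ ≤ L k := fun k => by
    have h1 : (X : ℝ) ^ (max 16 (max X₁ X₂)) ≤ L k := by exact_mod_cast hL k
    exact (pow_le_pow_right₀ (by linarith) ((le_max_left _ _).trans (le_max_right _ _))).trans h1
  have hL2 : ∀ k, (X : ℝ) ≤ L k := fun k => by
    have h1 : (X : ℝ) ^ (max 16 (max X₁ X₂)) ≤ L k := by exact_mod_cast hL k
    refine le_trans ?_ h1
    calc (X : ℝ) = (X : ℝ) ^ 1 := (pow_one _).symm
      _ ≤ _ := pow_le_pow_right₀ (by linarith) ((by norm_num : 1 ≤ 16).trans (le_max_left _ _))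
  have hP0 : 0 < ∏ k, (L k : ℝ) := prod_pos fun k _ => by linarith [hL2 k]
  refine with_rank N L hP0 _ _ _ ε ?_ (h2 X hX2 b N L hL2)
  rw [proportion_eq]
  have h3 := h X hX1 (fun j => b j) (basis_span b) N L hL1 (fun t => if t = true then valN else valP) (fun t => by
      cases t
      · exact hP
      · exact hN) (fun t t' htt hφ => absurd hφ htt)
    ((box N L).filter fun n => ∀ s : I, productDeviation r (pr (combine b n)) X (s : ℝ≥0) ≤ x s ∧
        sumDeviation r (nag (combine b n)) X (s : ℝ≥0) ≤ y s) (fun n => by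
      rw [mem_filter]
      refine and_congr Iff.rfl ?_
      rw [Prod.forall, Bool.forall_bool]
      have hc : ∀ s : I, ((s : ℝ≥0) : ℝ) ≤ 1 := fun s => by exact_mod_cast (hI s s.2).2
      constructor
      · intro h5
        refine ⟨fun s => ?_, fun s => ?_⟩
        · have h6 := (h5 s).1
          rw [product_eq hX16 (hc s) r _ (fun v => valP v (combine b n)) (hpr (combine b n))] at h6
          exact h6
        · have h6 := (h5 s).2
          rw [hnag (combine b n) X (by omega) _ (hc s)] at h6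
          exact h6
      · rintro ⟨h5, h6⟩ s
        refine ⟨?_, ?_⟩
        · rw [product_eq hX16 (hc s) r _ (fun v => valP v (combine b n)) (hpr (combine b n))]
          exact h5 s
        · rw [hnag (combine b n) X (by omega) _ (hc s)]
          exact h6 s)
  rw [Fintype.prod_bool] at h3
  have h4 : brownian I x * brownian I y = Q282.CL.W I y * Q282.CL.W I x := mul_comm _ _
  rw [h4]
  exact h3

/-- the elliptic curves have large rank -/
lemma rank_E (K : Type) [Field K] [NumberField K] (r : ℕ) (hr : r ≤ 2) (ε : ℝ) (hε : 0 < ε) : ∃ X₁ : ℕ, ∀ X : ℕ, X₁ ≤ X →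
    ∀ (b : Module.Basis (Fin (Module.finrank ℚ K)) ℤ (𝓞 K))
      (N : Fin (r + 3) × Fin (Module.finrank ℚ K) → ℤ) (L : Fin (r + 3) × Fin (Module.finrank ℚ K) → ℕ), (∀ k, (X : ℝ) ≤ L k) →
      proportion N L (fun n => ¬ RankE r (combine b n)) ≤ ε := by
  classical
  obtain ⟨C, hC, hrank⟩ := Q282.NF.rank_nf K r hr 1 zero_lt_one
  obtain ⟨X₂, hX₂⟩ := Filter.eventually_atTop.1 (Q282.BP.loglog_tendsto.eventually_ge_atTop (C / ε + 1))
  refine ⟨max 16 X₂, fun X hX b N L hL => ?_⟩
  have hX16 : 16 ≤ X := (le_max_left _ _).trans hX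
  have hll := hX₂ X ((le_max_right _ _).trans hX)
  have hX0 : (16 : ℝ) ≤ X := by exact_mod_cast hX16
  have hP0 : 0 < ∏ k, (L k : ℝ) := prod_pos fun k _ => by linarith [hL k]
  have hPe : ∏ k : Fin (r + 3) × Fin (Module.finrank ℚ K), (L k : ℝ) = ∏ i, ∏ j, (L (i, j) : ℝ) := Fintype.prod_prod_type _
  have h4 := hrank (fun j => b j) (basis_span b) X X hX16 le_rfl (fun i j => N (i, j)) (fun i j => L (i, j)) (fun i j => hL (i, j))
    (((box N L).filter fun n => ¬ RankE r (combine b n)).image fun n i j => n (i, j)) (fun n hn => by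
      obtain ⟨n', hn', rfl⟩ := mem_image.1 hn
      have h2 := (mem_filter.1 hn').1
      unfold box at h2
      unfold Q282.NF.box
      rw [Fintype.mem_piFinset] at h2 ⊢
      intro i
      rw [Fintype.mem_piFinset]
      exact fun j => h2 (i, j)) (fun n hn hOk => by
      obtain ⟨n', hn', rfl⟩ := mem_image.1 hn
      exact (mem_filter.1 hn').2 hOk)
  have hinj : Function.Injective (fun (n : Fin (r + 3) × Fin (Module.finrank ℚ K) → ℤ) (i : Fin (r + 3)) (j : Fin (Module.finrank ℚ K)) => n (i, j)) := by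
    intro n n' h
    funext ⟨i, j⟩
    exact congrFun (congrFun h i) j
  rw [card_image_of_injective _ hinj, ← hPe] at h4
  rw [proportion_eq, div_le_iff₀ hP0]
  refine h4.trans ?_
  have hpos : 0 < Real.log (Real.log X) := by
    have : 0 ≤ C / ε := by positivity
    linarith
  rw [Real.rpow_neg_one, mul_comm C, mul_assoc, mul_comm (∏ k, (L k : ℝ))]
  refine mul_le_mul_of_nonneg_right ?_ hP0.le
  rw [← div_eq_mul_inv, div_le_iff₀ hpos]
  have h6 : C / ε ≤ Real.log (Real.log X) := by linarith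
  rw [div_le_iff₀ hε] at h6
  linarith

/-- the Jacobians have large rank -/
lemma rank_J (K : Type) [Field K] [NumberField K] (g r : ℕ) (hg : 1 ≤ g) (hr : r ≤ g) (ε : ℝ) (hε : 0 < ε) : ∃ X₁ : ℕ, ∀ X : ℕ, X₁ ≤ X →
    ∀ (b : Module.Basis (Fin (Module.finrank ℚ K)) ℤ (𝓞 K))
      (N : Q282.JK.Idx r (2 * g + 1 - r) × Fin (Module.finrank ℚ K) → ℤ) (L : Q282.JK.Idx r (2 * g + 1 - r) × Fin (Module.finrank ℚ K) → ℕ),
      (∀ k, (X : ℝ) ≤ L k) → proportion N L (fun n => ¬ RankJ K r (Q282.JK.fpol (combine b n))) ≤ ε := by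
  classical
  have hrm : r + (2 * g + 1 - r) = 2 * g + 1 := by omega
  obtain ⟨C, hC, hrank⟩ := Q282.JK.rank_J K g r (2 * g + 1 - r) hrm hr hg 1 zero_lt_one
  obtain ⟨X₂, hX₂⟩ := Filter.eventually_atTop.1 (Q282.BP.loglog_tendsto.eventually_ge_atTop (C / ε + 1))
  refine ⟨max 16 X₂, fun X hX b N L hL => ?_⟩
  have hX16 : 16 ≤ X := (le_max_left _ _).trans hX
  have hll := hX₂ X ((le_max_right _ _).trans hX)
  have hX0 : (16 : ℝ) ≤ X := by exact_mod_cast hX16
  have hP0 : 0 < ∏ k, (L k : ℝ) := prod_pos fun k _ => by linarith [hL k]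
  have h4 := hrank (fun j => b j) (basis_span b) N L X X hX16 le_rfl hL
    ((box N L).filter fun n => ¬ RankJ K r (Q282.JK.fpol (combine b n))) (filter_subset _ _) (fun n hn hOk => (mem_filter.1 hn).2 hOk)
  rw [proportion_eq, div_le_iff₀ hP0]
  refine h4.trans ?_
  have hpos : 0 < Real.log (Real.log X) := by
    have : 0 ≤ C / ε := by positivity
    linarith
  rw [Real.rpow_neg_one, mul_comm C, mul_assoc, mul_comm (∏ k, (L k : ℝ))]
  refine mul_le_mul_of_nonneg_right ?_ hP0.le
  rw [← div_eq_mul_inv, div_le_iff₀ hpos]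
  have h6 : C / ε ≤ Real.log (Real.log X) := by linarith
  rw [div_le_iff₀ hε] at h6
  linarith

lemma loc2_mono {ι : Type} [Fintype ι] [DecidableEq ι] {P₀ P₁ : ℕ} {κ B B' : ℝ} {val : HeightOneSpectrum (𝓞 K) → (ι → 𝓞 K) → ℝ} (hP : P₀ ≤ P₁)
    (hBB : B ≤ B') (h : Q282.MN.Loc2 K ι P₀ κ B val) : Q282.MN.Loc2 K ι P₁ κ B' val := by
  intro v
  obtain ⟨F, i1, i2, π, G, h1, h2, h3, h4, h5, h6, h7⟩ := h v
  refine ⟨F, i1, i2, π, G, h1, h2, h3, h4, h5, fun u => (h6 u).trans (div_le_div_of_nonneg_right hBB (Real.sqrt_nonneg _)), fun h8 => ?_⟩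
  have h9 : B / (Fintype.card F : ℝ) ^ (3 / 2 : ℝ) ≤ B' / (Fintype.card F : ℝ) ^ (3 / 2 : ℝ) :=
    div_le_div_of_nonneg_right hBB (by positivity)
  exact ⟨(h7 (hP.trans h8)).1.trans h9, (h7 (hP.trans h8)).2.trans h9⟩

/-- the logarithm of the product -/
lemma log_productE (C : 𝓞 K × 𝓞 K × 𝓞 K) (X : ℕ) : Real.log (Q282.NF.product C X) = ∑ v ∈ Q282.GK.SX K X, Q282.NF.hv v C := by
  classical
  have h1 : Q282.NF.product C X = ∏ v ∈ (Q282.GK.SX K X).filter (Q282.NF.Good C), ((Q282.NF.points C v : ℝ) + 1) / Ideal.absNorm v.asIdeal := by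
    unfold Q282.NF.product
    refine finprod_mem_eq_prod_of_inter_mulSupport_eq _ ?_
    congr 1
    ext v
    rw [Set.mem_ofPred_eq, mem_coe, mem_filter, Q282.GK.mem_SX]
    exact and_comm
  rw [h1, Real.log_prod, sum_filter]
  · refine sum_congr rfl fun v _ => ?_
    unfold Q282.NF.hv
    rfl
  · intro v _
    have : (0 : ℝ) < Ideal.absNorm v.asIdeal := by exact_mod_cast Q282.NF.nm_pos v
    positivity

end

/-- Let `K` be a number field, let `I` be a finite set of times `s` with `0 < s ≤ 1`, let `x_s` and `y_s`, `s ∈ I`, be real numbers,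
and `ε > 0`.

(1) Let `r = 0, 1, 2`. There is an `X₁` with the following property. Let `X ≥ X₁` be an integer, let `b` be a basis of the ring of
integers of `K` over `ℤ`, and let a box `N k ≤ n k < N k + L k` of coordinates be given all sides `L k` of which are at least
`X ^ X₁`. Consider the `n` of the box for which, with the parameters `t i = ∑ n (i, j) b j` and `(u, v, w) = family r t`, the curve
`E_t : y ^ 2 = x ^ 3 + u x ^ 2 + v x + w` is an elliptic curve over `K`, its group of `K`-rational points has rank at least `r`, and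
for all `s ∈ I` one has `(log P(exp ((log X) ^ s)) - (r + 1 / 2) s log log X) / sqrt (log log X) ≤ x_s` and
`√2 (N(X, X ^ √s) - r √s) ≤ y_s`; here `P(Y)` is the product of the `#E_t(k_v) / q_v` and `N(X, Y)` is
`- (log X)⁻¹ ∑ (q_v + 1 - #E_t(k_v)) log q_v / q_v`, over the primes `v` of `K` with `q_v ≤ Y` not dividing twice the discriminant. The
proportion of these `n` differs by at most `ε` from the product of the probabilities that the Brownian motion satisfies
`B_s ≤ x_s` for all `s ∈ I`, and that it satisfies `B_s ≤ y_s` for all `s ∈ I`.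

(2) The same for the Jacobians of the curves `C_t : y ^ 2 = f_t(x) = (x - a_1) ⋯ (x - a_r) h(x) + l(x) ^ 2` of genus `g ≥ 1`, where
`0 ≤ r ≤ g`, `h` is monic of degree `2 g + 1 - r`, `deg l < r`, with `P(Y) = ∏ P_v(1 / q_v)`, where `P_v` is the numerator of the zeta
function of the reduction of `C_t` (so `P_v(1 / q_v) = #J_t(k_v) / q_v ^ g`), and
`N(X, Y) = - (log X)⁻¹ ∑ (q_v + 1 - #C_t(k_v)) log q_v / q_v`; in addition `f_t` is irreducible over `K`. -/
theorem result (K : Type) [Field K] [NumberField K] (I : Finset ℝ≥0) (hI : ∀ s ∈ I, 0 < s ∧ s ≤ 1) (x y : I → ℝ) (ε : ℝ) (hε : 0 < ε) :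
    (∀ r : ℕ, r ≤ 2 → ∃ X₁ : ℕ, ∀ X : ℕ, X₁ ≤ X → ∀ (b : Module.Basis (Fin (Module.finrank ℚ K)) ℤ (𝓞 K))
      (N : Fin (r + 3) × Fin (Module.finrank ℚ K) → ℤ) (L : Fin (r + 3) × Fin (Module.finrank ℚ K) → ℕ), (∀ k, X ^ X₁ ≤ L k) →
      |proportion N L (fun n => RankE r (combine b n) ∧ ∀ s : I,
          productDeviation r (Q282.NF.product (Q282.NF.family r (combine b n))) X (s : ℝ≥0) ≤ x s ∧
          sumDeviation r (nagaoE (Q282.NF.family r (combine b n))) X (s : ℝ≥0) ≤ y s) - brownian I x * brownian I y| ≤ ε) ∧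
    (∀ g r : ℕ, 1 ≤ g → r ≤ g → ∃ X₁ : ℕ, ∀ X : ℕ, X₁ ≤ X → ∀ (b : Module.Basis (Fin (Module.finrank ℚ K)) ℤ (𝓞 K))
      (N : Q282.JK.Idx r (2 * g + 1 - r) × Fin (Module.finrank ℚ K) → ℤ) (L : Q282.JK.Idx r (2 * g + 1 - r) × Fin (Module.finrank ℚ K) → ℕ),
      (∀ k, X ^ X₁ ≤ L k) →
      |proportion N L (fun n => RankJ K r (Q282.JK.fpol (combine b n)) ∧ ∀ s : I,
          productDeviation r (Q282.JK.product (Q282.JK.fpol (combine b n))) X (s : ℝ≥0) ≤ x s ∧
          sumDeviation r (nagaoJ (Q282.JK.fpol (combine b n))) X (s : ℝ≥0) ≤ y s) - brownian I x * brownian I y| ≤ ε) := by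
  classical
  refine ⟨fun r hr => ?_, fun g r hg hr => ?_⟩
  · obtain ⟨B, hB, hloc⟩ := Q207.NS.loc2_hv K r hr
    refine both K (Fin (r + 3)) 5 r (max B 100) (by positivity) (fun v t => Q282.NF.hv v (Q282.NF.family r t))
      (fun v t => Q282.MN.lv v (Q282.NF.family r t)) (loc2_mono le_rfl (le_max_left _ _) hloc)
      (loc2_mono le_rfl (le_max_right _ _) (Q282.MN.loc2_nf K r hr)) (fun t => RankE r t) (fun t => Q282.NF.product (Q282.NF.family r t))
      (fun t => nagaoE (Q282.NF.family r t)) (fun t Y => log_productE _ Y) (fun t X hX s hs => ?_) (rank_E K r hr) I hI x y ε hε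
    exact sum_eq hX hs r (Q282.NF.Good (Q282.NF.family r t))
      (fun v => (Ideal.absNorm v.asIdeal : ℝ) + 1 - ((Q282.NF.points (Q282.NF.family r t) v : ℝ) + 1)) _
      (fun v hv => by
        show Q282.MN.lv v (Q282.NF.family r t) = _
        unfold Q282.MN.lv
        rw [if_pos hv]
        ring) (fun v hv => if_neg hv)
  · have hrm : r + (2 * g + 1 - r) = 2 * g + 1 := by omega
    obtain ⟨B, hB, hlocJ⟩ := Q282.JB.loc2_J K g r (2 * g + 1 - r) hrm hr hg
    obtain ⟨B', hB', hlocT⟩ := Q282.JB.loc2_T K g r (2 * g + 1 - r) hrm hr hg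
    refine both K (Q282.JK.Idx r (2 * g + 1 - r)) 3 r (max B B') (le_max_of_le_left hB) (fun v t => Q282.JK.val (Q282.JK.fpol t) v)
      (fun v t => Q282.JB.valT (Q282.JK.fpol t) v) (loc2_mono le_rfl (le_max_left _ _) hlocJ)
      (loc2_mono le_rfl (le_max_right _ _) hlocT) (fun t => RankJ K r (Q282.JK.fpol t)) (fun t => Q282.JK.product (Q282.JK.fpol t))
      (fun t => nagaoJ (Q282.JK.fpol t)) (fun t Y => ?_) (fun t X hX s hs => ?_) (rank_J K g r hg hr) I hI x y ε hε
    · exact (Q282.JK.log_product (Q282.JK.fpol t) (Q282.JK.fpol_monic (by omega) _) g (by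
        rw [Q282.JK.fpol_natDegree (by omega : r ≤ 2 * g + 1 - r), hrm]) Y).2
    · exact sum_eq hX hs r (Q282.JK.Good (Q282.JK.fpol t))
        (fun v => (Ideal.absNorm v.asIdeal : ℝ) + 1 - ((Q282.JK.points (Q282.JK.fpol t) v 1 : ℝ) + 1)) _
        (fun v hv => by
          show Q282.JB.valT (Q282.JK.fpol t) v = _
          unfold Q282.JB.valT
          rw [if_pos hv]
          ring) (fun v hv => if_neg hv)

end Pool.Agent.Results.MP_32c55d_nt.TwoScales
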